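import Pool.Agent.helper48.CG.Spec
import Pool.Agent.helper67.CG.FIN

/-!
The gap theorem with hypotheses on growth rates only.
-/

set_option autoImplicit false

namespace Pool.Agent.helper48.CG

open Equiv Finset Function Pool.Agent.helper48.PP

/-- The growth rate of the number of avoiders of `σ` is at most that of the number of avoiders of
`τ`: for all `δ > 1`, one has `|Av_n(σ)| ≤ δ ^ n |Av_n(τ)|` for all large `n`. -/
def GrowthLe {k l : ℕ} (σ : Perm (Fin k)) (τ : Perm (Fin l)) : Prop :=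
  ∀ δ : ℝ, 1 < δ → ∃ N : ℕ, ∀ n, N ≤ n → (avCount n σ : ℝ) ≤ δ ^ n * (avCount n τ : ℝ)

/-- Basic properties of the sequence of the numbers of avoiders. -/
structure Reg (s : ℕ → ℝ) (c : ℝ) : Prop where
  hc : 1 ≤ c
  h1 : ∀ n, 1 ≤ s n
  h2 : ∀ m n, s m * s n ≤ s (m + n)
  h3 : ∀ n, s n ≤ c ^ n

theorem reg_of {k : ℕ} {σ : Perm (Fin k)} (hσ : SkewIndec σ) (hk : 2 ≤ k) :
    ∃ c : ℝ, Reg (fun m => (avCount m σ : ℝ)) c := by
  obtain ⟨c, hc, hcn⟩ := FIN_sw σ hk
  refine ⟨c, by exact_mod_cast hc, fun n => ?_, fun m n => ?_, fun n => ?_⟩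
  · have := one_le_avCount hσ (by omega) n
    exact_mod_cast this
  · have := avCount_mul hσ m n
    exact_mod_cast this
  · exact_mod_cast hcn n

theorem avCount_one_le (σ : Perm (Fin 1)) (n : ℕ) : avCount n σ ≤ 1 := by
  classical
  rcases n with _ | n
  · unfold avCount
    refine (Finset.card_le_univ _).trans ?_
    simp [Fintype.card_perm]
  · have : avCount (n + 1) σ = 0 := by
      unfold avCount
      rw [Finset.card_eq_zero, Finset.filter_eq_empty_iff]
      intro w _ hw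
      refine hw ⟨fun _ => 0, fun s t hst => ?_, fun s t => ?_⟩
      · exact absurd hst (by rw [Subsingleton.elim s t]; exact lt_irrefl _)
      · rw [Subsingleton.elim s t]
        simp
    omega

theorem growth_bound {k l : ℕ} {σ : Perm (Fin k)} {τ : Perm (Fin l)} {c : ℝ}
    (hσ : SkewIndec σ) (hk : 1 ≤ k) (hτ : Reg (fun m => (avCount m τ : ℝ)) c)
    (h : GrowthLe σ τ) (m : ℕ) :
    (avCount m σ : ℝ) ≤ rg (fun m => (avCount m τ : ℝ)) ^ (2 * m) := by
  have hr := one_le_rg hτ.hc hτ.h1 hτ.h3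
  set r := rg (fun m => (avCount m τ : ℝ)) with hrdef
  rcases Nat.lt_or_ge 1 k with hk1 | hk1
  · obtain ⟨c', hR⟩ := reg_of hσ hk1
    have hle := le_rg_pow hR.hc hR.h1 hR.h2 hR.h3 m
    have hrσ := one_le_rg hR.hc hR.h1 hR.h3
    refine hle.trans (pow_le_pow_left₀ (by linarith) ?_ _)
    -- compare the growth rates
    by_contra hn
    push Not at hn
    obtain ⟨t, ht1, ht2⟩ := exists_between hn
    have ht0 : 0 < t := by linarith
    obtain ⟨κ, hκ0, -, hκ⟩ := exists_kappa hR.h1 hR.h2 ht0.le ht2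
    -- `δ` with `δ r ^ 2 < t ^ 2`
    obtain ⟨δ, hδ1, hδ2⟩ : ∃ δ : ℝ, 1 < δ ∧ δ * r ^ 2 < t ^ 2 := by
      have hlt : r ^ 2 < t ^ 2 := by nlinarith
      have hr2 : 0 < r ^ 2 := by positivity
      have h5 : 1 < t ^ 2 / r ^ 2 := by rw [lt_div_iff₀ hr2, one_mul]; exact hlt
      obtain ⟨δ, h6, h7⟩ := exists_between h5
      exact ⟨δ, h6, by rwa [lt_div_iff₀ hr2] at h7⟩
    obtain ⟨N, hN⟩ := h δ hδ1
    have hδ0 : 0 < δ := by linarith
    have hr2 : 0 < δ * r ^ 2 := by positivity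
    have hρ : 1 < t ^ 2 / (δ * r ^ 2) := by rw [lt_div_iff₀ hr2, one_mul]; exact hδ2
    obtain ⟨n₀, hn₀⟩ := pow_unbounded_of_one_lt (1 / κ) hρ
    set n := max n₀ N with hndef
    have h8 : 1 / κ < (t ^ 2 / (δ * r ^ 2)) ^ n :=
      hn₀.trans_le (pow_le_pow_right₀ hρ.le (le_max_left _ _))
    have h9 := hN n (le_max_right _ _)
    have h10 := le_rg_pow hτ.hc hτ.h1 hτ.h2 hτ.h3 n
    have h11 := hκ n
    have h12 : κ * (t ^ 2) ^ n ≤ (δ * r ^ 2) ^ n := by
      calc κ * (t ^ 2) ^ n = κ * t ^ (2 * n) := by rw [pow_mul]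
        _ ≤ (avCount n σ : ℝ) := h11
        _ ≤ δ ^ n * (avCount n τ : ℝ) := h9
        _ ≤ δ ^ n * r ^ (2 * n) := by gcongr
        _ = (δ * r ^ 2) ^ n := by rw [mul_pow, ← pow_mul]
    rw [div_pow, div_lt_div_iff₀ hκ0 (by positivity)] at h8
    nlinarith
  · have hk2 : k = 1 := by omega
    subst hk2
    calc (avCount m σ : ℝ) ≤ 1 := by exact_mod_cast avCount_one_le σ m
      _ ≤ r ^ (2 * m) := one_le_pow₀ hr

theorem skewIndec_one (σ : Perm (Fin 1)) : SkewIndec σ := by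
  intro c h1 h2
  omega

theorem skewIndec_dsum_one {a : ℕ} (x : Perm (Fin a)) : SkewIndec (dsum x (1 : Perm (Fin 1))) := by
  rcases a with _ | a
  · intro c h1 h2
    omega
  · exact skewIndec_dsum (by omega) (by omega) _ _

theorem skewIndec_one_dsum {a : ℕ} (x : Perm (Fin a)) : SkewIndec (dsum (1 : Perm (Fin 1)) x) := by
  rcases a with _ | a
  · intro c h1 h2
    omega
  · exact skewIndec_dsum (by omega) (by omega) _ _

/-- The gap theorem. -/
theorem FIN2 (hHG : HG_stmt) (hUP : UP_stmt) (hINS : INS_stmt) (hSUP : SUP_stmt)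
    (hWPC : WPC_stmt) (hFEW : FEW_stmt) (hGRW : GRW_stmt)
    (hLOW : LOW_stmt) {a b b' k : ℕ} (x : Perm (Fin a)) (y' : Perm (Fin b'))
    (y : Perm (Fin (b + 1))) (p : Perm (Fin (k + 1))) (hp : SkewIndec p)
    (hlast : p (Fin.last k) ≠ Fin.last k)
    (hle : GrowthLe (dsum x (1 : Perm (Fin 1))) p)
    (hle' : GrowthLe (dsum (1 : Perm (Fin 1)) y') (dsum (1 : Perm (Fin 1)) y)) :
    ∃ ρ : ℝ, 1 < ρ ∧ ∃ N, ∀ n, N ≤ n →
    ρ ^ n * (avCount n (dsum (dsum x (1 : Perm (Fin 1))) y') : ℝ) ≤ (avCount n (dsum p y) : ℝ) ∧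
    (avCount n (dsum (dsum x (1 : Perm (Fin 1))) y') : ℝ) < (avCount n (dsum p y) : ℝ) := by
  obtain ⟨l, rfl⟩ := length_two_le hlast
  have hτ' : SkewIndec (dsum (1 : Perm (Fin 1)) y) := skewIndec_dsum (by omega) (by omega) _ _
  obtain ⟨c, hRp⟩ := reg_of hp (by omega)
  obtain ⟨c', hRy⟩ := reg_of hτ' (by omega)
  have hUα := growth_bound (skewIndec_dsum_one x) (by omega) hRp hle
  have hUβ := growth_bound (skewIndec_one_dsum y') (by omega) hRy hle'
  set s : ℕ → ℝ := fun m => (avCount m p : ℝ) with hs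
  set s' : ℕ → ℝ := fun m => (avCount m (dsum (1 : Perm (Fin 1)) y) : ℝ) with hs'
  obtain ⟨hcR, h1, h2, h3⟩ := hRp
  obtain ⟨hcR', h1', h2', h3'⟩ := hRy
  have hav : ∀ n, s' n = ((avs y n).card : ℝ) := fun n => by
    have := (hHG y (1 : Perm (Fin 0))).2.2.2.2.2 n
    simp only [hs']; exact_mod_cast this
  have ha1 := one_le_rg hcR h1 h3
  have hb1 := one_le_rg hcR' h1' h3'
  set β : ℝ := rg s' with hβ
  have hYpos : 0 < rg s + β := by linarith
  set θ : ℝ := 1 / (rg s + β) ^ 2 with hθ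
  have hθ0 : 0 < θ := by positivity
  obtain ⟨hS1, hS2, hS3⟩ := hSUP y θ hθ0.le
  obtain ⟨hW1, hW2⟩ := hWPC y θ hθ0.le
  have hbig : ∃ q, β ^ (2 * q) < wt y θ q := by
    refine hFEW s' (wt y θ) (fun q k => (((avs y q).filter fun v => (corn y v).card ≤ k).card : ℝ))
      c' θ hcR' hθ0 h1' h2' h3' (fun q k => ?_) (fun q d k => ?_)
    · rw [hav]
      exact hW2 q k
    · rw [hav]
      have := hINS y q d k
      exact_mod_cast this
  have h4 : ∀ n, wt y θ n ≤ ((1 + θ) * c') ^ n := fun n => by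
    refine (hS3 n).trans ?_
    rw [mul_pow]
    exact mul_le_mul_of_nonneg_left (h3' n) (by positivity)
  have hc2 : (1:ℝ) ≤ (1 + θ) * c' := by nlinarith
  obtain ⟨M, q, j, hMqj⟩ := hGRW s (wt y θ) (fun q j => (pc y q j : ℝ)) c ((1 + θ) * c') β
    hcR hc2 hb1 h1 h2 h3 hS2 hS1 h4 (fun q j => Nat.cast_nonneg _) (fun q => hW1 q) hbig
  have hτ : SkewIndec (dsum p y) := skewIndec_dsum (by omega) (by omega) _ _
  by_cases hR : 0 < M + (q + j)
  · refine eventually_gap (Y := rg s + β) (by linarith) M (M + (q + j)) hR hMqj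
      (fun n => Nat.cast_nonneg _) (fun n => ?_) (v := fun n =>
        (avCount n (dsum p y) : ℝ)) (fun m n hmn => ?_) (fun K => ?_)
    · have h5 := hUP x y' n
      calc (avCount n (dsum (dsum x (1 : Perm (Fin 1))) y') : ℝ) ≤
          ((∑ m ∈ Finset.range (n + 1), n.choose m * n.choose m *
            (avCount m (dsum x (1 : Perm (Fin 1))) *
              avCount (n - m) (dsum (1 : Perm (Fin 1)) y')) : ℕ) : ℝ) := by exact_mod_cast h5
        _ = ∑ m ∈ Finset.range (n + 1), (n.choose m : ℝ) * n.choose m *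
            ((avCount m (dsum x (1 : Perm (Fin 1))) : ℝ) *
              (avCount (n - m) (dsum (1 : Perm (Fin 1)) y') : ℝ)) := by push_cast; rfl
        _ ≤ ∑ m ∈ Finset.range (n + 1), (n.choose m : ℝ) * n.choose m *
            (rg s ^ (2 * m) * β ^ (2 * (n - m))) := by
            refine Finset.sum_le_sum fun m _ => ?_
            refine mul_le_mul_of_nonneg_left ?_ (by positivity)
            exact mul_le_mul (hUα m) (hUβ (n - m)) (Nat.cast_nonneg _) (by positivity)
        _ = ∑ m ∈ Finset.range (n + 1), (rg s ^ m * β ^ (n - m) * (n.choose m : ℝ)) ^ 2 := by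
            refine Finset.sum_congr rfl fun m _ => ?_
            ring
        _ ≤ (∑ m ∈ Finset.range (n + 1), rg s ^ m * β ^ (n - m) * (n.choose m : ℝ)) ^ 2 :=
            sum_sq_le _ _ fun m _ => by positivity
        _ = _ := by rw [← add_pow, ← pow_mul, mul_comm n 2]
    · have := avCount_monotone hτ (by omega) hmn
      simp only at this ⊢
      exact_mod_cast this
    · have h7 := hLOW p y hp hlast M q j (one_le_avCount hp (by omega) M) K
      simp only [hs]
      exact_mod_cast h7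
  · exfalso
    have hM : M = 0 := by omega
    have hq : q = 0 := by omega
    have hj : j = 0 := by omega
    subst hM hq hj
    have h8 := le_rg_pow hcR h1 h2 h3 0
    have h9 : (pc y 0 0 : ℝ) ≤ 1 := by exact_mod_cast FIN_pc0 y
    have h10 : (0:ℝ) ≤ (pc y 0 0 : ℝ) := Nat.cast_nonneg _
    simp only [mul_zero, add_zero, pow_zero, Nat.choose_self, Nat.cast_one, one_mul] at hMqj h8
    nlinarith [h1 0]

end Pool.Agent.helper48.CG
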