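import Pool.Agent.helper48.CG.ST3
import Pool.Agent.helper48.CG.Fin2
import Pool.Agent.helper18.CG.HG
import Pool.Agent.helper20.CG.UP
import Pool.Agent.helper72.CG.IN1
import Pool.Agent.helper62.CG.IN2
import Pool.Agent.helper23.CG.IN3
import Pool.Agent.helper24.CG.BDI
import Pool.Agent.helper34.CG.INS
import Pool.Agent.helper75.CG.SUP
import Pool.Agent.helper46.CG.WPC
import Pool.Agent.helper97.CG.FEW
import Pool.Agent.helper62.CG.GRW
import Pool.Agent.helper1.CG.MRG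
import Pool.Agent.helper66.CG.COR

/-!
The theorems of project cg, assembled.
-/

set_option autoImplicit false

namespace Pool.Agent.helper48.CG

open Equiv Finset Function Pool.Agent.helper48.PP

theorem ins_all : INS_stmt := INS HG IN1 (IN2 HG) (IN3 HG) BDI

theorem main {a b b' k : ℕ} (x : Perm (Fin a)) (y' : Perm (Fin b'))
    (y : Perm (Fin (b + 1))) (p : Perm (Fin (k + 1))) (hp : SkewIndec p)
    (hlast : p (Fin.last k) ≠ Fin.last k)
    (hle : GrowthLe (dsum x (1 : Perm (Fin 1))) p)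
    (hle' : GrowthLe (dsum (1 : Perm (Fin 1)) y') (dsum (1 : Perm (Fin 1)) y)) :
    ∃ ρ : ℝ, 1 < ρ ∧ ∃ N, ∀ n, N ≤ n →
    ρ ^ n * (avCount n (dsum (dsum x (1 : Perm (Fin 1))) y') : ℝ) ≤ (avCount n (dsum p y) : ℝ) ∧
    avCount n (dsum (dsum x (1 : Perm (Fin 1))) y') < avCount n (dsum p y) := by
  obtain ⟨ρ, hρ, N, hN⟩ := FIN2 HG UP ins_all (SUP HG) (WPC HG) FEW GRW (LOW HG) x y' y p hp hlast
    hle hle'
  exact ⟨ρ, hρ, N, fun n hn => ⟨(hN n hn).1, by exact_mod_cast (hN n hn).2⟩⟩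

theorem cor {a b : ℕ} (x : Perm (Fin (a + 1))) (y : Perm (Fin (b + 1))) :
    ∃ ρ : ℝ, 1 < ρ ∧ ∃ N, ∀ n, N ≤ n →
    ρ ^ n * (avCount n (dsum (dsum x (1 : Perm (Fin 2))) y) : ℝ) ≤
      (avCount n (dsum (dsum x (Equiv.swap (0 : Fin 2) 1)) y) : ℝ) ∧
    avCount n (dsum (dsum x (1 : Perm (Fin 2))) y) <
      avCount n (dsum (dsum x (Equiv.swap (0 : Fin 2) 1)) y) := by
  obtain ⟨ρ, hρ, N, hN⟩ := COR (FIN HG UP ins_all (SUP HG) (WPC HG) FEW GRW MRG (LOW HG)) x y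
  exact ⟨ρ, hρ, N, fun n hn => ⟨(hN n hn).1, by exact_mod_cast (hN n hn).2⟩⟩

end Pool.Agent.helper48.CG
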