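import Pool.Agent.helper48.CG.Spec

/-!
One stage of the staircase construction with corner insertions: from a permutation of length `N`
we pass to a permutation of length `N + (M + (q + j))`.
-/

set_option autoImplicit false

namespace Pool.Agent.helper48.CG

open Equiv Finset Function Pool.Agent.helper48.PP

variable {k b N M q j : ℕ}

/-- The invariant of the construction. -/
structure Good {X : Type*} (p : Perm (Fin k)) (y : Perm (Fin b)) (pos val : X → ℕ)
    (U : X → Prop) : Prop where
  g1 : ∀ h : Fin k → X, (∀ s, ¬ U (h s)) → (∀ s t, s < t → pos (h s) < pos (h t)) →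
    (∀ s t, val (h s) < val (h t) ↔ p s < p t) → False
  g2 : ∀ x z, U x → pos x < pos z → val x < val z → U z
  g3 : ∀ x, U x → ∀ g : Fin b → X, (∀ s t, s < t → pos (g s) < pos (g t)) →
    (∀ s t, val (g s) < val (g t) ↔ y s < y t) → (∀ t, pos x < pos (g t) ∧ val x < val (g t)) →
    ∀ z, (pos x < pos z → ∃ t, pos (g t) ≤ pos z) ∧ (val x < val z → ∃ t, val (g t) ≤ val z)

theorem Good.congr {X Y : Type*} {p : Perm (Fin k)} {y : Perm (Fin b)} {pos val : X → ℕ}
    {U : X → Prop} (H : Good p y pos val U) {pos' val' : Y → ℕ} (e : Y ≃ X)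
    (h1 : ∀ y y', pos' y < pos' y' ↔ pos (e y) < pos (e y'))
    (h2 : ∀ y y', val' y < val' y' ↔ val (e y) < val (e y')) :
    Good p y pos' val' (fun y => U (e y)) where
  g1 := fun h hU hm hi => H.g1 (fun s => e (h s)) hU (fun s t hst => (h1 _ _).mp (hm s t hst))
    (fun s t => (h2 _ _).symm.trans (hi s t))
  g2 := fun x z hx hp hv => H.g2 (e x) (e z) hx ((h1 _ _).mp hp) ((h2 _ _).mp hv)
  g3 := fun x hx g hm hi hxg z => by
    have := H.g3 (e x) hx (fun s => e (g s)) (fun s t hst => (h1 _ _).mp (hm s t hst))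
      (fun s t => (h2 _ _).symm.trans (hi s t))
      (fun t => ⟨(h1 _ _).mp (hxg t).1, (h2 _ _).mp (hxg t).2⟩) (e z)
    refine ⟨fun hz => ?_, fun hz => ?_⟩
    · obtain ⟨t, ht⟩ := this.1 ((h1 _ _).mp hz)
      exact ⟨t, not_lt.mp fun hh => absurd ((h1 _ _).mp hh) (not_lt.mpr ht)⟩
    · obtain ⟨t, ht⟩ := this.2 ((h2 _ _).mp hz)
      exact ⟨t, not_lt.mp fun hh => absurd ((h2 _ _).mp hh) (not_lt.mpr ht)⟩

/-- A good permutation. -/
def GoodP (M : ℕ) (p : Perm (Fin k)) (y : Perm (Fin b)) (w : Perm (Fin N)) : Prop :=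
  ∃ U : Fin N → Prop, Good p y (fun i : Fin N => (i : ℕ)) (fun i => (w i : ℕ)) U ∧
    ∀ i, (w i : ℕ) < M → ¬ U i

/-- Good permutations avoid `p ⊕ y`, if `p` does not end with its maximum and `y` is not
empty. -/
theorem GoodP.avoid {p : Perm (Fin (k + 1))} {y : Perm (Fin (b + 1))} {w : Perm (Fin N)}
    (H : GoodP M p y w) (hlast : p (Fin.last k) ≠ Fin.last k) : ¬ Contains w (dsum p y) := by
  obtain ⟨U, H, -⟩ := H
  rintro ⟨f, hf⟩
  obtain ⟨H1, H2, H3⟩ := isCopy_dsum hf
  set h : Fin (k + 1) → Fin N := fun s => f (Fin.castAdd (b + 1) s) with hh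
  set g : Fin (b + 1) → Fin N := fun t => f (Fin.natAdd (k + 1) t) with hg
  have hex : ∃ s, U (h s) := by
    by_contra hn
    push Not at hn
    exact H.g1 h hn (fun s t hst => H1.1 hst) (fun s t => H1.2 s t)
  obtain ⟨s, hs⟩ := hex
  have key := H.g3 (h s) hs g (fun a c hac => H2.1 hac) (fun a c => H2.2 a c)
    (fun t => ⟨(H3 s t).1, (H3 s t).2⟩)
  have hall : ∀ t, t ≠ s → h t < h s ∧ w (h t) < w (h s) := by
    intro t ht
    constructor
    · rcases lt_trichotomy (h t) (h s) with h5 | h5 | h5
      · exact h5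
      · exact absurd (H1.1.injective h5) ht
      · exfalso
        obtain ⟨t', ht'⟩ := (key (h t)).1 h5
        have := (H3 t t').1
        rw [Fin.lt_def] at this
        exact absurd this (not_lt.mpr ht')
    · rcases lt_trichotomy (w (h t)) (w (h s)) with h5 | h5 | h5
      · exact h5
      · exact absurd (H1.1.injective (w.injective h5)) ht
      · exfalso
        obtain ⟨t', ht'⟩ := (key (h t)).2 h5
        have := (H3 t t').2
        rw [Fin.lt_def] at this
        exact absurd this (not_lt.mpr ht')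
  apply hlast
  have hs1 : s = Fin.last k := by
    by_contra hn
    have h1 := (hall (Fin.last k) (Ne.symm hn)).1
    have h2 := H1.1.lt_iff_lt.mp h1
    exact absurd h2 (not_lt.mpr (Fin.le_last s))
  subst hs1
  by_contra hn
  have h5 : p (p.symm (Fin.last k)) = Fin.last k := by simp
  have h6 : p.symm (Fin.last k) ≠ Fin.last k := by
    intro h7; rw [h7] at h5; exact hn h5
  have h8 := (H1.2 _ _).mp (hall _ h6).2
  rw [h5] at h8
  exact absurd h8 (not_lt.mpr (Fin.le_last _))

/-- Corner data: a permutation `v`, corner columns `D l` with rows `R l`. -/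
structure CD (y : Perm (Fin b)) (v : Perm (Fin q)) (D R : Fin j → Fin q) : Prop where
  c0 : ∀ u : Fin q, ¬ Yge y v ((u : ℕ) + 1) ((v u : ℕ))
  cD : StrictMono D
  c1 : ∀ l, Yge y v (D l) (R l)
  c2 : ∀ l, ¬ Yge y v ((D l : ℕ) + 1) (R l)
  c3 : ∀ l, ¬ Yge y v (D l) ((R l : ℕ) + 1)

theorem Yge.mono {y : Perm (Fin b)} {v : Perm (Fin q)} {c r c' r' : ℕ} (h : Yge y v c r)
    (hc : c' ≤ c) (hr : r' ≤ r) : Yge y v c' r' := by
  obtain ⟨g, hg, hg'⟩ := h
  exact ⟨g, hg, fun s => ⟨hc.trans (hg' s).1, hr.trans (hg' s).2⟩⟩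

/-- The rows of the corners are decreasing. -/
theorem CD.anti {y : Perm (Fin b)} {v : Perm (Fin q)} {D R : Fin j → Fin q} (H : CD y v D R)
    {l l' : Fin j} (h : (D l : ℕ) < D l') : (R l' : ℕ) < R l := by
  by_contra hn
  push Not at hn
  exact H.c2 l ((H.c1 l').mono (by omega) hn)

theorem CD.le_iff {y : Perm (Fin b)} {v : Perm (Fin q)} {D R : Fin j → Fin q} (H : CD y v D R)
    {l l' : Fin j} (h1 : (D l : ℕ) ≤ D l') (h2 : (R l : ℕ) ≤ R l') : l = l' := by
  rcases lt_or_eq_of_le h1 with h | h
  · have := H.anti h; omega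
  · exact H.cD.injective (Fin.ext h)

theorem CD.injR {y : Perm (Fin b)} {v : Perm (Fin q)} {D R : Fin j → Fin q} (H : CD y v D R) :
    Injective R := by
  intro l l' h
  rcases lt_trichotomy (D l : ℕ) (D l') with h1 | h1 | h1
  · have := H.anti h1; rw [h] at this; omega
  · exact H.cD.injective (Fin.ext h1)
  · have := H.anti h1; rw [h] at this; omega

/-- The position key of a block. -/
def bpk (e : Fin M ⊕ Fin q ≃ Fin (M + q)) (D : Fin j → Fin q) :
    Fin M ⊕ (Fin q ⊕ Fin j) → ℕ
  | Sum.inl i => 2 * (e (Sum.inl i) : ℕ) + 1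
  | Sum.inr (Sum.inl u) => 2 * (e (Sum.inr u) : ℕ) + 1
  | Sum.inr (Sum.inr l) => 2 * (e (Sum.inr (D l)) : ℕ)

/-- The value key of a block. -/
def bvk (v : Perm (Fin q)) (e : Fin M ⊕ Fin q ≃ Fin (M + q)) (R : Fin j → Fin q) :
    Fin M ⊕ (Fin q ⊕ Fin j) → ℕ
  | Sum.inl i => 2 * (e (Sum.inl i) : ℕ) + 1
  | Sum.inr (Sum.inl u) => 2 * (e (Sum.inr (v u)) : ℕ) + 1
  | Sum.inr (Sum.inr l) => 2 * (e (Sum.inr (R l)) : ℕ)

theorem bpk_lt (e : Fin M ⊕ Fin q ≃ Fin (M + q)) (D : Fin j → Fin q)
    (x : Fin M ⊕ (Fin q ⊕ Fin j)) : bpk e D x < 2 * (M + q) := by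
  rcases x with i | u | l
  · have := (e (Sum.inl i)).2; simp only [bpk]; omega
  · have := (e (Sum.inr u)).2; simp only [bpk]; omega
  · have := (e (Sum.inr (D l))).2; simp only [bpk]; omega

theorem bvk_lt (v : Perm (Fin q)) (e : Fin M ⊕ Fin q ≃ Fin (M + q)) (R : Fin j → Fin q)
    (x : Fin M ⊕ (Fin q ⊕ Fin j)) : bvk v e R x < 2 * (M + q) := by
  rcases x with i | u | l
  · have := (e (Sum.inl i)).2; simp only [bvk]; omega
  · have := (e (Sum.inr (v u))).2; simp only [bvk]; omega
  · have := (e (Sum.inr (R l))).2; simp only [bvk]; omega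

theorem bpk_inj (e : Fin M ⊕ Fin q ≃ Fin (M + q)) {D : Fin j → Fin q} (hD : Injective D) :
    Injective (bpk e D) := by
  intro x y h
  rcases x with i | u | l <;> rcases y with i' | u' | l' <;> simp only [bpk] at h
  · have h1 := e.injective (Fin.ext (show (e (Sum.inl i) : ℕ) = e (Sum.inl i') by omega))
    simp at h1; rw [h1]
  · have h1 := e.injective (Fin.ext (show (e (Sum.inl i) : ℕ) = e (Sum.inr u') by omega))
    simp at h1
  · omega
  · have h1 := e.injective (Fin.ext (show (e (Sum.inr u) : ℕ) = e (Sum.inl i') by omega))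
    simp at h1
  · have h1 := e.injective (Fin.ext (show (e (Sum.inr u) : ℕ) = e (Sum.inr u') by omega))
    simp at h1; rw [h1]
  · omega
  · omega
  · omega
  · have h1 := e.injective (Fin.ext (show (e (Sum.inr (D l)) : ℕ) = e (Sum.inr (D l')) by omega))
    simp at h1; rw [hD h1]

theorem bvk_inj (v : Perm (Fin q)) (e : Fin M ⊕ Fin q ≃ Fin (M + q)) {R : Fin j → Fin q}
    (hR : Injective R) : Injective (bvk v e R) := by
  intro x y h
  rcases x with i | u | l <;> rcases y with i' | u' | l' <;> simp only [bvk] at h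
  · have h1 := e.injective (Fin.ext (show (e (Sum.inl i) : ℕ) = e (Sum.inl i') by omega))
    simp at h1; rw [h1]
  · have h1 := e.injective (Fin.ext (show (e (Sum.inl i) : ℕ) = e (Sum.inr (v u')) by omega))
    simp at h1
  · omega
  · have h1 := e.injective (Fin.ext (show (e (Sum.inr (v u)) : ℕ) = e (Sum.inl i') by omega))
    simp at h1
  · have h1 := e.injective (Fin.ext (show (e (Sum.inr (v u)) : ℕ) = e (Sum.inr (v u')) by omega))
    simp at h1; rw [h1]
  · omega
  · omega
  · omega
  · have h1 := e.injective (Fin.ext (show (e (Sum.inr (R l)) : ℕ) = e (Sum.inr (R l')) by omega))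
    simp at h1; rw [hR h1]

/-- Positions. -/
def pk (N : ℕ) (e : Fin M ⊕ Fin q ≃ Fin (M + q)) (D : Fin j → Fin q) :
    Fin N ⊕ (Fin M ⊕ (Fin q ⊕ Fin j)) → ℕ
  | Sum.inl i => i
  | Sum.inr x => N + bpk e D x

/-- Values. -/
def vk (w : Perm (Fin N)) (σ : Perm (Fin M)) (v : Perm (Fin q)) (e : Fin M ⊕ Fin q ≃ Fin (M + q))
    (R : Fin j → Fin q) : Fin N ⊕ (Fin M ⊕ (Fin q ⊕ Fin j)) → ℕ
  | Sum.inl i => if h : (w i : ℕ) < M then M + bvk v e R (Sum.inl ⟨w i, h⟩) else
      M + 2 * (M + q) + w i
  | Sum.inr (Sum.inl i) => σ i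
  | Sum.inr (Sum.inr y) => M + bvk v e R (Sum.inr y)

theorem pk_inj (e : Fin M ⊕ Fin q ≃ Fin (M + q)) {D : Fin j → Fin q} (hD : Injective D) :
    Injective (pk N e D) := by
  intro x y h
  rcases x with i | x <;> rcases y with i' | y <;> simp only [pk] at h
  · rw [Fin.ext h]
  · have := i.2; omega
  · have := i'.2; omega
  · rw [bpk_inj e hD (show bpk e D x = bpk e D y by omega)]

theorem vk_inj (w : Perm (Fin N)) (σ : Perm (Fin M)) (v : Perm (Fin q))
    (e : Fin M ⊕ Fin q ≃ Fin (M + q)) {R : Fin j → Fin q} (hR : Injective R) :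
    Injective (vk w σ v e R) := by
  intro x y h
  rcases x with i | i | x <;> rcases y with i' | i' | y
  · simp only [vk] at h
    split_ifs at h with h1 h2 h2
    · have h3 := bvk_inj v e hR (show bvk v e R (Sum.inl ⟨w i, h1⟩) =
        bvk v e R (Sum.inl ⟨w i', h2⟩) by omega)
      simp only [Sum.inl.injEq, Fin.mk.injEq] at h3
      rw [w.injective (Fin.ext h3)]
    · have := bvk_lt v e R (Sum.inl ⟨w i, h1⟩); omega
    · have := bvk_lt v e R (Sum.inl ⟨w i', h2⟩); omega
    · rw [w.injective (Fin.ext (show (w i : ℕ) = w i' by omega))]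
  · simp only [vk] at h
    have := (σ i').2
    split_ifs at h <;> omega
  · simp only [vk] at h
    split_ifs at h with h1
    · have h3 := bvk_inj v e hR (show bvk v e R (Sum.inl ⟨w i, h1⟩) = bvk v e R (Sum.inr y) by
        omega)
      simp at h3
    · have := bvk_lt v e R (Sum.inr y); omega
  · simp only [vk] at h
    have := (σ i).2
    split_ifs at h <;> omega
  · simp only [vk] at h
    rw [σ.injective (Fin.ext h)]
  · simp only [vk] at h
    have := (σ i).2
    omega
  · simp only [vk] at h
    split_ifs at h with h1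
    · have h3 := bvk_inj v e hR (show bvk v e R (Sum.inr x) = bvk v e R (Sum.inl ⟨w i', h1⟩) by
        omega)
      simp at h3
    · have := bvk_lt v e R (Sum.inr x); omega
  · simp only [vk] at h
    have := (σ i').2
    omega
  · simp only [vk] at h
    rw [bvk_inj v e hR (show bvk v e R (Sum.inr x) = bvk v e R (Sum.inr y) by omega)]

theorem vk_old {w : Perm (Fin N)} {σ : Perm (Fin M)} {v : Perm (Fin q)}
    {e : Fin M ⊕ Fin q ≃ Fin (M + q)} {R : Fin j → Fin q}
    (he : StrictMono fun i : Fin M => e (Sum.inl i)) (i i' : Fin N) :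
    vk w σ v e R (Sum.inl i) < vk w σ v e R (Sum.inl i') ↔ (w i : ℕ) < w i' := by
  simp only [vk]
  split_ifs with h1 h2 h2
  · simp only [bvk]
    have h3 := he.lt_iff_lt (a := ⟨(w i : ℕ), h1⟩) (b := ⟨(w i' : ℕ), h2⟩)
    simp only [Fin.lt_def] at h3
    rw [← h3]
    omega
  · have := bvk_lt v e R (Sum.inl ⟨w i, h1⟩)
    omega
  · have := bvk_lt v e R (Sum.inl ⟨w i', h2⟩)
    omega
  · omega

theorem vk_old_ge {w : Perm (Fin N)} {σ : Perm (Fin M)} {v : Perm (Fin q)}
    {e : Fin M ⊕ Fin q ≃ Fin (M + q)} {R : Fin j → Fin q} (i : Fin N) :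
    M ≤ vk w σ v e R (Sum.inl i) := by
  simp only [vk]
  split_ifs <;> omega

/-- The set `U` after a stage. -/
def Unew (U : Fin N → Prop) : Fin N ⊕ (Fin M ⊕ (Fin q ⊕ Fin j)) → Prop
  | Sum.inl i => U i
  | Sum.inr (Sum.inl _) => False
  | Sum.inr (Sum.inr _) => True

theorem pk_split {e : Fin M ⊕ Fin q ≃ Fin (M + q)} {D : Fin j → Fin q}
    {x y : Fin N ⊕ (Fin M ⊕ (Fin q ⊕ Fin j))} (h : pk N e D x < pk N e D y)
    (hy : ∃ i, y = Sum.inl i) : ∃ i, x = Sum.inl i := by
  obtain ⟨i, rfl⟩ := hy
  rcases x with i' | x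
  · exact ⟨i', rfl⟩
  · exfalso
    simp only [pk] at h
    have := i.2
    omega

/-- A copy of `y` in the upper part of a block, above and to the right of the element `x` of the
upper part: `x` is a corner element, and the copy consists of elements of `v`. -/
theorem block_copy {y : Perm (Fin (b + 1))} {v : Perm (Fin q)} {D R : Fin j → Fin q}
    (H : CD y v D R) {ea eb : Fin M ⊕ Fin q ≃ Fin (M + q)}
    (ha2 : StrictMono fun i : Fin q => ea (Sum.inr i))
    (hb2 : StrictMono fun i : Fin q => eb (Sum.inr i)) (x : Fin q ⊕ Fin j)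
    (g : Fin (b + 1) → Fin q ⊕ Fin j)
    (hm : ∀ s t, s < t → bpk ea D (Sum.inr (g s)) < bpk ea D (Sum.inr (g t)))
    (hi : ∀ s t, bvk v eb R (Sum.inr (g s)) < bvk v eb R (Sum.inr (g t)) ↔ y s < y t)
    (hx : ∀ t, bpk ea D (Sum.inr x) < bpk ea D (Sum.inr (g t)) ∧
      bvk v eb R (Sum.inr x) < bvk v eb R (Sum.inr (g t))) :
    ∃ l, x = Sum.inr l ∧ ∃ f : Fin (b + 1) → Fin q, IsCopy v y f ∧ ∀ s, g s = Sum.inl (f s) := by
  -- comparison of keys
  have ea_le : ∀ u u' : Fin q, (ea (Sum.inr u) : ℕ) ≤ ea (Sum.inr u') ↔ (u : ℕ) ≤ u' :=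
    fun u u' => ha2.le_iff_le
  have eb_le : ∀ u u' : Fin q, (eb (Sum.inr u) : ℕ) ≤ eb (Sum.inr u') ↔ (u : ℕ) ≤ u' :=
    fun u u' => hb2.le_iff_le
  -- every element has a lower left element `(c, r)` with no `y` in `v` beyond, or is a corner
  have hE : ∀ (z : Fin q ⊕ Fin j) (l : Fin j), bpk ea D (Sum.inr z) < bpk ea D (Sum.inr (Sum.inr l)) →
      bvk v eb R (Sum.inr z) < bvk v eb R (Sum.inr (Sum.inr l)) → False := by
    intro z l h1 h2
    rcases z with u | l'
    · simp only [bpk, bvk] at h1 h2
      have h3 : (u : ℕ) < D l := by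
        have := ea_le (D l) u; omega
      have h4 : (v u : ℕ) < R l := by
        have := eb_le (R l) (v u); omega
      exact H.c0 u ((H.c1 l).mono (by omega) (by omega))
    · simp only [bpk, bvk] at h1 h2
      have h3 : (D l' : ℕ) < D l := by
        have := ea_le (D l) (D l'); omega
      have h4 : (R l' : ℕ) < R l := by
        have := eb_le (R l) (R l'); omega
      have := H.anti h3
      omega
  have hg : ∀ s, ∃ u, g s = Sum.inl u := by
    intro s
    rcases hs : g s with u | l
    · exact ⟨u, rfl⟩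
    · exfalso
      have := hx s
      rw [hs] at this
      exact hE x l this.1 this.2
  choose f hf using hg
  have hfc : IsCopy v y f := by
    refine ⟨fun s t hst => ?_, fun s t => ?_⟩
    · have := hm s t hst
      rw [hf s, hf t] at this
      simp only [bpk] at this
      have h3 := ea_le (f t) (f s)
      rw [Fin.lt_def]
      omega
    · rw [← hi s t, hf s, hf t]
      simp only [bvk]
      have h3 := eb_le (v (f t)) (v (f s))
      rw [Fin.lt_def]
      omega
  rcases x with u | l
  · exfalso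
    refine H.c0 u ⟨f, hfc, fun s => ?_⟩
    have := hx s
    rw [hf s] at this
    simp only [bpk, bvk] at this
    have h3 := ea_le (f s) u
    have h4 := eb_le (v (f s)) (v u)
    omega
  · exact ⟨l, rfl, f, hfc, hf⟩

/-- The corner property. -/
theorem block_corner {y : Perm (Fin (b + 1))} {v : Perm (Fin q)} {D R : Fin j → Fin q}
    (H : CD y v D R) {ea eb : Fin M ⊕ Fin q ≃ Fin (M + q)}
    (ha2 : StrictMono fun i : Fin q => ea (Sum.inr i))
    (hb2 : StrictMono fun i : Fin q => eb (Sum.inr i)) (x : Fin q ⊕ Fin j)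
    (g : Fin (b + 1) → Fin q ⊕ Fin j)
    (hm : ∀ s t, s < t → bpk ea D (Sum.inr (g s)) < bpk ea D (Sum.inr (g t)))
    (hi : ∀ s t, bvk v eb R (Sum.inr (g s)) < bvk v eb R (Sum.inr (g t)) ↔ y s < y t)
    (hx : ∀ t, bpk ea D (Sum.inr x) < bpk ea D (Sum.inr (g t)) ∧
      bvk v eb R (Sum.inr x) < bvk v eb R (Sum.inr (g t))) (z : ℕ) :
    (bpk ea D (Sum.inr x) < z → ∃ t, bpk ea D (Sum.inr (g t)) ≤ z) ∧
    (bvk v eb R (Sum.inr x) < z → ∃ t, bvk v eb R (Sum.inr (g t)) ≤ z) := by
  obtain ⟨l, rfl, f, hf, hfg⟩ := block_copy H ha2 hb2 x g hm hi hx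
  have ea_le : ∀ u u' : Fin q, (ea (Sum.inr u) : ℕ) ≤ ea (Sum.inr u') ↔ (u : ℕ) ≤ u' :=
    fun u u' => ha2.le_iff_le
  have eb_le : ∀ u u' : Fin q, (eb (Sum.inr u) : ℕ) ≤ eb (Sum.inr u') ↔ (u : ℕ) ≤ u' :=
    fun u u' => hb2.le_iff_le
  constructor
  · intro hz
    by_contra hn
    push Not at hn
    refine H.c2 l ⟨f, hf, fun s => ?_⟩
    have h1 := hn s
    have h2 := (hx s).2
    rw [hfg s] at h1 h2
    simp only [bpk, bvk] at h1 h2 hz
    have h3 := ea_le (f s) (D l)
    have h4 := eb_le (R l) (v (f s))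
    omega
  · intro hz
    by_contra hn
    push Not at hn
    refine H.c3 l ⟨f, hf, fun s => ?_⟩
    have h1 := hn s
    have h2 := (hx s).1
    rw [hfg s] at h1 h2
    simp only [bpk, bvk] at h1 h2 hz
    have h3 := ea_le (D l) (f s)
    have h4 := eb_le (v (f s)) (R l)
    omega

theorem good_step {p : Perm (Fin k)} {y : Perm (Fin (b + 1))} (hp : SkewIndec p)
    {w : Perm (Fin N)} {U : Fin N → Prop}
    (H : Good p y (fun i : Fin N => (i : ℕ)) (fun i => (w i : ℕ)) U)
    (hU : ∀ i, (w i : ℕ) < M → ¬ U i) {σ : Perm (Fin M)} (hσ : ¬ Contains σ p)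
    {v : Perm (Fin q)} {D R : Fin j → Fin q} (HC : CD y v D R)
    {ea eb : Fin M ⊕ Fin q ≃ Fin (M + q)}
    (ha1 : StrictMono fun i : Fin M => ea (Sum.inl i))
    (ha2 : StrictMono fun i : Fin q => ea (Sum.inr i))
    (hb1 : StrictMono fun i : Fin M => eb (Sum.inl i))
    (hb2 : StrictMono fun i : Fin q => eb (Sum.inr i)) :
    Good p y (pk N ea D) (vk w σ v eb R) (Unew U) where
  g1 := by
    intro h hh hm hi
    by_cases hold : ∀ s, ∃ i, h s = Sum.inl i
    · choose f hf using hold
      refine H.g1 f (fun s => ?_) (fun s t hst => ?_) (fun s t => ?_)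
      · have := hh s; rw [hf s] at this; exact this
      · have := hm s t hst; rw [hf s, hf t] at this; exact this
      · rw [← hi s t, hf s, hf t, vk_old hb1]
    · push Not at hold
      obtain ⟨t₀, ht₀⟩ := hold
      by_cases hnew : ∀ s, ∀ i, h s ≠ Sum.inl i
      · have : ∀ s, ∃ i, h s = Sum.inr (Sum.inl i) := by
          intro s
          rcases hs : h s with i | i | y
          · exact absurd hs (hnew s i)
          · exact ⟨i, rfl⟩
          · have := hh s; rw [hs] at this; exact absurd trivial this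
        choose f hf using this
        apply hσ
        refine ⟨f, fun s t hst => ?_, fun s t => ?_⟩
        · have := hm s t hst
          rw [hf s, hf t] at this
          simp only [pk, bpk] at this
          rw [← ha1.lt_iff_lt, Fin.lt_def]
          omega
        · rw [← hi s t, hf s, hf t, Fin.lt_def]
          simp only [vk]
      · push Not at hnew
        obtain ⟨s₀, i₀, hs₀⟩ := hnew
        obtain ⟨i, jj, h1, h2, h3⟩ := hp.split (S := fun s => ∃ i, h s = Sum.inl i)
          (fun s t hst ht => pk_split (hm s t hst) ht) (s₀ := s₀) ⟨i₀, hs₀⟩ (t₀ := t₀)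
          (fun ⟨i, hi⟩ => ht₀ i hi)
        obtain ⟨i', hi'⟩ := h1
        have h4 := (hi i jj).mpr h3
        rw [hi'] at h4
        have h5 := vk_old_ge (w := w) (σ := σ) (v := v) (e := eb) (R := R) i'
        rcases hj : h jj with a | a | a
        · exact h2 ⟨a, hj⟩
        · rw [hj] at h4
          have h6 : vk w σ v eb R (Sum.inr (Sum.inl a)) = σ a := rfl
          have := (σ a).2
          omega
        · have := hh jj; rw [hj] at this; exact this trivial
  g2 := by
    intro x z hx hp1 hv
    rcases x with i | i | x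
    · have hi : ¬ (w i : ℕ) < M := fun h => hU i h hx
      have hvi : vk w σ v eb R (Sum.inl i) = M + 2 * (M + q) + w i := by
        simp only [vk]; rw [dif_neg hi]
      rcases z with i' | i' | z
      · exact H.g2 i i' hx hp1 ((vk_old hb1 i i').mp hv)
      · exfalso
        rw [hvi] at hv
        simp only [vk] at hv
        have := (σ i').2
        omega
      · exact trivial
    · exact absurd hx (fun h => h)
    · rcases z with i' | i' | z
      · exfalso
        simp only [pk] at hp1
        have := i'.2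
        omega
      · exfalso
        simp only [vk] at hv
        have := (σ i').2
        omega
      · exact trivial
  g3 := by
    intro x hx g hm hi hxg z
    rcases x with i | i | x
    · have hii : ¬ (w i : ℕ) < M := fun h => hU i h hx
      have hvi : vk w σ v eb R (Sum.inl i) = M + 2 * (M + q) + w i := by
        simp only [vk]; rw [dif_neg hii]
      have hg : ∀ s, ∃ u, g s = Sum.inl u := by
        intro s
        have hs := (hxg s).2
        rw [hvi] at hs
        rcases hgs : g s with u | u | u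
        · exact ⟨u, rfl⟩
        · exfalso
          rw [hgs] at hs
          simp only [vk] at hs
          have := (σ u).2
          omega
        · exfalso
          rw [hgs] at hs
          simp only [vk] at hs
          have := bvk_lt v eb R (Sum.inr u)
          omega
      choose f hf using hg
      rcases z with z | z
      · have key := H.g3 i hx f (fun s t hst => by
            have := hm s t hst; rw [hf s, hf t] at this; exact this)
          (fun s t => by rw [← hi s t, hf s, hf t, vk_old hb1])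
          (fun t => by
            have := hxg t
            rw [hf t] at this
            exact ⟨this.1, (vk_old hb1 _ _).mp this.2⟩) z
        refine ⟨fun hz => ?_, fun hz => ?_⟩
        · obtain ⟨t, ht⟩ := key.1 hz
          refine ⟨t, ?_⟩
          rw [hf t]; exact ht
        · obtain ⟨t, ht⟩ := key.2 ((vk_old hb1 _ _).mp hz)
          refine ⟨t, ?_⟩
          rw [hf t]
          by_contra hn
          push Not at hn
          have := (vk_old hb1 _ _).mp hn
          omega
      · refine ⟨fun _ => ⟨0, ?_⟩, fun hz => ?_⟩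
        · rw [hf 0]
          simp only [pk]
          have := (f 0).2
          omega
        · exfalso
          rw [hvi] at hz
          rcases z with z | z
          · simp only [vk] at hz
            have := (σ z).2
            omega
          · simp only [vk] at hz
            have := bvk_lt v eb R (Sum.inr z)
            omega
    · exact absurd hx (fun h => h)
    · have hg : ∀ s, ∃ u, g s = Sum.inr (Sum.inr u) := by
        intro s
        have hs := hxg s
        rcases hgs : g s with u | u | u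
        · exfalso
          rw [hgs] at hs
          simp only [pk] at hs
          have := u.2
          omega
        · exfalso
          rw [hgs] at hs
          simp only [vk] at hs
          have := (σ u).2
          omega
        · exact ⟨u, rfl⟩
      choose f hf using hg
      have hm' : ∀ s t, s < t → bpk ea D (Sum.inr (f s)) < bpk ea D (Sum.inr (f t)) := by
        intro s t hst
        have := hm s t hst
        rw [hf s, hf t] at this
        simp only [pk] at this
        omega
      have hi' : ∀ s t, bvk v eb R (Sum.inr (f s)) < bvk v eb R (Sum.inr (f t)) ↔ y s < y t := by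
        intro s t
        rw [← hi s t, hf s, hf t]
        simp only [vk]
        omega
      have hx' : ∀ t, bpk ea D (Sum.inr x) < bpk ea D (Sum.inr (f t)) ∧
          bvk v eb R (Sum.inr x) < bvk v eb R (Sum.inr (f t)) := by
        intro t
        have := hxg t
        rw [hf t] at this
        simp only [pk, vk] at this
        omega
      refine ⟨fun hz => ?_, fun hz => ?_⟩
      · obtain ⟨t, ht⟩ := (block_corner HC ha2 hb2 x f hm' hi' hx' (pk N ea D z - N)).1 (by
          simp only [pk] at hz ⊢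
          omega)
        refine ⟨t, ?_⟩
        rw [hf t]
        have hz' : N + bpk ea D (Sum.inr x) < pk N ea D z := hz
        change N + bpk ea D (Sum.inr (f t)) ≤ pk N ea D z
        omega
      · have hz' : M + bvk v eb R (Sum.inr x) < vk w σ v eb R z := hz
        obtain ⟨t, ht⟩ := (block_corner HC ha2 hb2 x f hm' hi' hx' (vk w σ v eb R z - M)).2 (by
          omega)
        refine ⟨t, ?_⟩
        rw [hf t]
        change M + bvk v eb R (Sum.inr (f t)) ≤ vk w σ v eb R z
        omega

end Pool.Agent.helper48.CG
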