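import Pool.Agent.helper48.CG.ST1

/-!
The stage map is injective.
-/

set_option autoImplicit false

namespace Pool.Agent.helper48.CG

open Equiv Finset Function Pool.Agent.helper48.PP

variable {k b N M q j : ℕ}

theorem rk_pk_old' (e : Fin M ⊕ Fin q ≃ Fin (M + q)) {D : Fin j → Fin q} (hD : Injective D)
    (i : Fin N) : (rk card_LX (pk N e D) (pk_inj e hD) (Sum.inl i) : ℕ) = i := by
  refine rk_eq_of _ _ _ _ (fun t : Fin N => (Sum.inl t : LX N M q j)) Sum.inl_injective i
    fun y => ?_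
  constructor
  · intro h
    obtain ⟨i', rfl⟩ := pk_split h ⟨i, rfl⟩
    exact ⟨i', h, rfl⟩
  · rintro ⟨t, ht, rfl⟩
    exact ht

theorem rk_vk_sig' (w : Perm (Fin N)) (σ : Perm (Fin M)) (v : Perm (Fin q))
    (e : Fin M ⊕ Fin q ≃ Fin (M + q)) {R : Fin j → Fin q} (hR : Injective R) (i : Fin M) :
    (rk card_LX (vk w σ v e R) (vk_inj w σ v e hR) (Sum.inr (Sum.inl i)) : ℕ) = σ i := by
  refine rk_eq_of _ _ _ _ (fun t : Fin M => (Sum.inr (Sum.inl (σ.symm t)) : LX N M q j))
    (fun t t' h => by simpa using h) (σ i) fun y => ?_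
  constructor
  · intro h
    rcases y with a | a | a
    · exfalso
      have h1 := vk_old_ge (w := w) (σ := σ) (v := v) (e := e) (R := R) a
      have h2 : vk w σ v e R (Sum.inr (Sum.inl i)) = σ i := rfl
      have := (σ i).2
      omega
    · exact ⟨σ a, h, by simp⟩
    · exfalso
      have h1 : vk w σ v e R (Sum.inr (Sum.inr a)) = M + bvk v e R (Sum.inr a) := rfl
      have h2 : vk w σ v e R (Sum.inr (Sum.inl i)) = σ i := rfl
      have := (σ i).2
      omega
  · rintro ⟨t, ht, rfl⟩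
    simpa [vk] using ht

/-- The new permutation. -/
noncomputable def nperm (w : Perm (Fin N)) (σ : Perm (Fin M)) (v : Perm (Fin q))
    (ea eb : Fin M ⊕ Fin q ≃ Fin (M + q))
    (D R : Fin j → Fin q) (hD : Injective D) (hR : Injective R) :
    Perm (Fin (N + (M + (q + j)))) :=
  std card_LX (pk N ea D) (vk w σ v eb R) (pk_inj ea hD) (vk_inj w σ v eb hR)

theorem goodP_nperm {p : Perm (Fin k)} {y : Perm (Fin (b + 1))} (hp : SkewIndec p)
    {w : Perm (Fin N)} (H : GoodP M p y w) {σ : Perm (Fin M)} (hσ : ¬ Contains σ p)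
    {v : Perm (Fin q)} {D R : Fin j → Fin q} (HC : CD y v D R)
    {ea eb : Fin M ⊕ Fin q ≃ Fin (M + q)}
    (ha1 : StrictMono fun i : Fin M => ea (Sum.inl i))
    (ha2 : StrictMono fun i : Fin q => ea (Sum.inr i))
    (hb1 : StrictMono fun i : Fin M => eb (Sum.inl i))
    (hb2 : StrictMono fun i : Fin q => eb (Sum.inr i)) :
    GoodP M p y (nperm w σ v ea eb D R HC.cD.injective HC.injR) := by
  obtain ⟨U, H, hU⟩ := H
  have G := good_step hp H hU hσ HC ha1 ha2 hb1 hb2
  refine ⟨_, G.congr (rk card_LX (pk N ea D) (pk_inj ea HC.cD.injective)).symm (fun y y' => ?_)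
    (fun y y' => ?_), fun i hi => ?_⟩
  · rw [← rk_lt card_LX (pk N ea D) (pk_inj ea HC.cD.injective), Equiv.apply_symm_apply,
      Equiv.apply_symm_apply, Fin.lt_def]
  · rw [← rk_lt card_LX (vk w σ v eb R) (vk_inj w σ v eb HC.injR), Fin.lt_def]
    rfl
  · have h1 : (nperm w σ v ea eb D R HC.cD.injective HC.injR i : ℕ) =
      (rk card_LX (vk w σ v eb R) (vk_inj w σ v eb HC.injR)
      ((rk card_LX (pk N ea D) (pk_inj ea HC.cD.injective)).symm i) : ℕ) := rfl
    set x := (rk card_LX (pk N ea D) (pk_inj ea HC.cD.injective)).symm i with hx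
    rw [h1] at hi
    set r : Fin M := ⟨_, hi⟩ with hr
    have h2 : x = Sum.inr (Sum.inl (σ.symm r)) := by
      apply (rk card_LX (vk w σ v eb R) (vk_inj w σ v eb HC.injR)).injective
      apply Fin.ext
      rw [rk_vk_sig' w σ v eb HC.injR, Equiv.apply_symm_apply]
    rw [h2]
    exact fun h => h

theorem stage_inj (hNM : M ≤ N) {y : Perm (Fin (b + 1))} {w w' : Perm (Fin N)}
    {σ σ' : Perm (Fin M)} {v v' : Perm (Fin q)}
    {ea eb ea' eb' : Fin M ⊕ Fin q ≃ Fin (M + q)} {D D' R R' : Fin j → Fin q}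
    (HC : CD y v D R) (HC' : CD y v' D' R')
    (ha1 : StrictMono fun i : Fin M => ea (Sum.inl i))
    (ha2 : StrictMono fun i : Fin q => ea (Sum.inr i))
    (hb1 : StrictMono fun i : Fin M => eb (Sum.inl i))
    (hb2 : StrictMono fun i : Fin q => eb (Sum.inr i))
    (ha1' : StrictMono fun i : Fin M => ea' (Sum.inl i))
    (ha2' : StrictMono fun i : Fin q => ea' (Sum.inr i))
    (hb1' : StrictMono fun i : Fin M => eb' (Sum.inl i))
    (hb2' : StrictMono fun i : Fin q => eb' (Sum.inr i))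
    (h : nperm w σ v ea eb D R HC.cD.injective HC.injR =
      nperm w' σ' v' ea' eb' D' R' HC'.cD.injective HC'.injR) :
    w = w' ∧ σ = σ' ∧ v = v' ∧
    (∀ i u, ea (Sum.inl i) < ea (Sum.inr u) ↔ ea' (Sum.inl i) < ea' (Sum.inr u)) ∧
    (∀ i u, eb (Sum.inl i) < eb (Sum.inr u) ↔ eb' (Sum.inl i) < eb' (Sum.inr u)) ∧ D = D' := by
  set P := rk card_LX (pk N ea D) (pk_inj ea HC.cD.injective) with hP
  set V := rk card_LX (vk w σ v eb R) (vk_inj w σ v eb HC.injR) with hV
  set P' := rk card_LX (pk N ea' D') (pk_inj ea' HC'.cD.injective) with hP'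
  set V' := rk card_LX (vk w' σ' v' eb' R') (vk_inj w' σ' v' eb' HC'.injR) with hV'
  have Plt : ∀ x y, P x < P y ↔ pk N ea D x < pk N ea D y := fun x y => rk_lt _ _ _ x y
  have Vlt : ∀ x y, V x < V y ↔ vk w σ v eb R x < vk w σ v eb R y := fun x y => rk_lt _ _ _ x y
  have P'lt : ∀ x y, P' x < P' y ↔ pk N ea' D' x < pk N ea' D' y := fun x y => rk_lt _ _ _ x y
  have V'lt : ∀ x y, V' x < V' y ↔ vk w' σ' v' eb' R' x < vk w' σ' v' eb' R' y :=
    fun x y => rk_lt _ _ _ x y
  set φ : LX N M q j ≃ LX N M q j := P.trans P'.symm with hφ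
  have hφP : ∀ x, P' (φ x) = P x := fun x => by simp [hφ]
  have hφV : ∀ x, V' (φ x) = V x := by
    intro x
    have h1 := congrArg (fun u : Perm (Fin (N + (M + (q + j)))) => u (P x)) h
    change V (P.symm (P x)) = V' (P'.symm (P x)) at h1
    rw [Equiv.symm_apply_apply] at h1
    exact h1.symm
  have pkφ : ∀ x y, pk N ea' D' (φ x) < pk N ea' D' (φ y) ↔ pk N ea D x < pk N ea D y := by
    intro x y; rw [← P'lt, hφP, hφP, Plt]
  have vkφ : ∀ x y, vk w' σ' v' eb' R' (φ x) < vk w' σ' v' eb' R' (φ y) ↔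
      vk w σ v eb R x < vk w σ v eb R y := by
    intro x y; rw [← V'lt, hφV, hφV, Vlt]
  -- old elements
  have f1 : ∀ i : Fin N, φ (Sum.inl i) = Sum.inl i := by
    intro i
    apply P'.injective
    apply Fin.ext
    rw [hφP, hP, hP', rk_pk_old' ea HC.cD.injective, rk_pk_old' ea' HC'.cD.injective]
  -- elements of `σ`
  have f2' : ∀ i : Fin M, φ (Sum.inr (Sum.inl i)) = Sum.inr (Sum.inl (σ'.symm (σ i))) := by
    intro i
    apply V'.injective
    apply Fin.ext
    rw [hφV, hV, hV', rk_vk_sig' w σ v eb HC.injR, rk_vk_sig' w' σ' v' eb' HC'.injR,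
      Equiv.apply_symm_apply]
  have hτ : StrictMono fun i : Fin M => σ'.symm (σ i) := by
    intro i i' hi
    have h1 : pk N ea D (Sum.inr (Sum.inl i)) < pk N ea D (Sum.inr (Sum.inl i')) := by
      simp only [pk, bpk]
      have := ha1 hi
      simp only [Fin.lt_def] at this
      omega
    rw [← pkφ, f2', f2'] at h1
    simp only [pk, bpk] at h1
    change σ'.symm (σ i) < σ'.symm (σ i')
    refine ha1'.lt_iff_lt.mp ?_
    rw [Fin.lt_def]
    omega
  have hτ' : ∀ i : Fin M, σ'.symm (σ i) = i := fun i => strictMono_eq_id hτ i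
  have hσσ : σ = σ' := by
    ext i
    rw [← Equiv.apply_symm_apply σ' (σ i), hτ']
  have f2 : ∀ i : Fin M, φ (Sum.inr (Sum.inl i)) = Sum.inr (Sum.inl i) := by
    intro i; rw [f2', hτ']
  -- elements of `U`
  have f3 : ∀ y, ∃ y', φ (Sum.inr (Sum.inr y)) = Sum.inr (Sum.inr y') := by
    intro y
    rcases hy : φ (Sum.inr (Sum.inr y)) with a | a | a
    · rw [← f1 a] at hy; exact absurd (φ.injective hy) (by simp)
    · rw [← f2 a] at hy; exact absurd (φ.injective hy) (by simp)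
    · exact ⟨a, rfl⟩
  have f3' : ∀ y', ∃ y, φ (Sum.inr (Sum.inr y)) = Sum.inr (Sum.inr y') := by
    intro y'
    rcases hy : φ.symm (Sum.inr (Sum.inr y')) with a | a | a
    · have := f1 a; rw [← hy, Equiv.apply_symm_apply, hy] at this; simp at this
    · have := f2 a; rw [← hy, Equiv.apply_symm_apply, hy] at this; simp at this
    · exact ⟨a, by rw [← hy, Equiv.apply_symm_apply]⟩
  -- the map on the upper elements
  choose ψ hψ using f3
  choose ψ' hψ' using f3'
  have bpkψ : ∀ x z, bpk ea' D' (Sum.inr (ψ x)) < bpk ea' D' (Sum.inr (ψ z)) ↔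
      bpk ea D (Sum.inr x) < bpk ea D (Sum.inr z) := by
    intro x z
    have h1 := pkφ (Sum.inr (Sum.inr x)) (Sum.inr (Sum.inr z))
    rw [hψ, hψ] at h1
    simp only [pk] at h1
    omega
  have bvkψ : ∀ x z, bvk v' eb' R' (Sum.inr (ψ x)) < bvk v' eb' R' (Sum.inr (ψ z)) ↔
      bvk v eb R (Sum.inr x) < bvk v eb R (Sum.inr z) := by
    intro x z
    have h1 := vkφ (Sum.inr (Sum.inr x)) (Sum.inr (Sum.inr z))
    rw [hψ, hψ] at h1
    simp only [vk] at h1
    omega
  have ψψ' : ∀ z, ψ (ψ' z) = z := by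
    intro z
    have h1 := hψ' z
    rw [hψ] at h1
    simpa using h1
  -- a corner element has a copy of `y` above and to the right, within the block
  have corner_copy : ∀ {v : Perm (Fin q)} {ea eb : Fin M ⊕ Fin q ≃ Fin (M + q)}
      {D R : Fin j → Fin q}, CD y v D R → (StrictMono fun i : Fin q => ea (Sum.inr i)) →
      (StrictMono fun i : Fin q => eb (Sum.inr i)) → ∀ l : Fin j,
      ∃ g : Fin (b + 1) → Fin q ⊕ Fin j,
      (∀ s t, s < t → bpk ea D (Sum.inr (g s)) < bpk ea D (Sum.inr (g t))) ∧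
      (∀ s t, bvk v eb R (Sum.inr (g s)) < bvk v eb R (Sum.inr (g t)) ↔ y s < y t) ∧
      (∀ t, bpk ea D (Sum.inr (Sum.inr l)) < bpk ea D (Sum.inr (g t)) ∧
        bvk v eb R (Sum.inr (Sum.inr l)) < bvk v eb R (Sum.inr (g t))) := by
    intro v ea eb D R HC ha2 hb2 l
    have ea_le : ∀ u u' : Fin q, (ea (Sum.inr u) : ℕ) ≤ ea (Sum.inr u') ↔ (u : ℕ) ≤ u' :=
      fun u u' => ha2.le_iff_le
    have eb_le : ∀ u u' : Fin q, (eb (Sum.inr u) : ℕ) ≤ eb (Sum.inr u') ↔ (u : ℕ) ≤ u' :=
      fun u u' => hb2.le_iff_le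
    obtain ⟨f, hf, hf'⟩ := HC.c1 l
    refine ⟨fun s => Sum.inl (f s), fun s t hst => ?_, fun s t => ?_, fun t => ?_⟩
    · simp only [bpk]
      have h1 := ea_le (f t) (f s)
      have h2 := hf.1 hst
      rw [Fin.lt_def] at h2
      omega
    · rw [← hf.2 s t, Fin.lt_def]
      simp only [bvk]
      have h1 := eb_le (v (f t)) (v (f s))
      omega
    · have h1 := hf' t
      simp only [bpk, bvk]
      have h2 := ea_le (D l) (f t)
      have h3 := eb_le (R l) (v (f t))
      omega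
  have f4 : ∀ u : Fin q, ∃ u', ψ (Sum.inl u) = Sum.inl u' := by
    intro u
    rcases hu : ψ (Sum.inl u) with u' | l'
    · exact ⟨u', rfl⟩
    · exfalso
      obtain ⟨g, hg1, hg2, hg3⟩ := corner_copy (ea := ea') (eb := eb') HC' ha2' hb2' l'
      obtain ⟨l, hl, -⟩ := block_copy HC ha2 hb2 (Sum.inl u) (fun s => ψ' (g s))
        (fun s t hst => by rw [← bpkψ, ψψ', ψψ']; exact hg1 s t hst)
        (fun s t => by rw [← bvkψ, ψψ', ψψ']; exact hg2 s t)
        (fun t => by rw [← bpkψ, ← bvkψ, ψψ', hu]; exact hg3 t)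
      simp at hl
  have f5 : ∀ l : Fin j, ∃ l', ψ (Sum.inr l) = Sum.inr l' := by
    intro l
    rcases hl : ψ (Sum.inr l) with u' | l'
    · exfalso
      obtain ⟨g, hg1, hg2, hg3⟩ := corner_copy (ea := ea) (eb := eb) HC ha2 hb2 l
      obtain ⟨l', hl', -⟩ := block_copy HC' ha2' hb2' (Sum.inl u') (fun s => ψ (g s))
        (fun s t hst => by rw [bpkψ]; exact hg1 s t hst)
        (fun s t => by rw [bvkψ]; exact hg2 s t)
        (fun t => by rw [← hl, bpkψ, bvkψ]; exact hg3 t)
      simp at hl'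
    · exact ⟨l', rfl⟩
  choose μ hμ using f4
  choose ν hν using f5
  have hμ' : ∀ u, μ u = u := by
    intro u
    refine strictMono_eq_id (f := μ) ?_ u
    intro a c hac
    have h1 : bpk ea D (Sum.inr (Sum.inl a)) < bpk ea D (Sum.inr (Sum.inl c)) := by
      simp only [bpk]
      have := ha2 hac
      simp only [Fin.lt_def] at this
      omega
    rw [← bpkψ, hμ, hμ] at h1
    simp only [bpk] at h1
    rw [← ha2'.lt_iff_lt, Fin.lt_def]
    omega
  have hν' : ∀ u, ν u = u := by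
    intro u
    refine strictMono_eq_id (f := ν) ?_ u
    intro a c hac
    have h1 : bpk ea D (Sum.inr (Sum.inr a)) < bpk ea D (Sum.inr (Sum.inr c)) := by
      simp only [bpk]
      have := ha2 (HC.cD hac)
      simp only [Fin.lt_def] at this
      omega
    rw [← bpkψ, hν, hν] at h1
    simp only [bpk] at h1
    rw [← HC'.cD.lt_iff_lt, ← ha2'.lt_iff_lt, Fin.lt_def]
    omega
  have fid : ∀ x, φ x = x := by
    intro x
    rcases x with i | i | u | l
    · exact f1 i
    · exact f2 i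
    · rw [hψ, hμ, hμ']
    · rw [hψ, hν, hν']
  have pkk : ∀ x y, pk N ea' D' x < pk N ea' D' y ↔ pk N ea D x < pk N ea D y := by
    intro x y; have := pkφ x y; rwa [fid, fid] at this
  have vkk : ∀ x y, vk w' σ' v' eb' R' x < vk w' σ' v' eb' R' y ↔
      vk w σ v eb R x < vk w σ v eb R y := by
    intro x y; have := vkφ x y; rwa [fid, fid] at this
  have hww : w = w' := by
    refine rk_unique w w' fun x y => ?_
    have := vkk (Sum.inl x) (Sum.inl y)
    rw [vk_old hb1, vk_old hb1'] at this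
    rw [Fin.lt_def, Fin.lt_def, this]
  have hvv : v = v' := by
    refine rk_unique v v' fun x y => ?_
    have := vkk (Sum.inr (Sum.inr (Sum.inl x))) (Sum.inr (Sum.inr (Sum.inl y)))
    simp only [vk, bvk] at this
    rw [← hb2.lt_iff_lt (a := v x) (b := v y), ← hb2'.lt_iff_lt (a := v' x) (b := v' y),
      Fin.lt_def, Fin.lt_def]
    omega
  refine ⟨hww, hσσ, hvv, fun i u => ?_, fun i u => ?_, ?_⟩
  · have := pkk (Sum.inr (Sum.inl i)) (Sum.inr (Sum.inr (Sum.inl u)))
    simp only [pk, bpk] at this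
    rw [Fin.lt_def, Fin.lt_def]
    omega
  · have hi : (w (w.symm ⟨i, i.2.trans_le hNM⟩) : ℕ) = i := by simp
    have := vkk (Sum.inl (w.symm ⟨i, i.2.trans_le hNM⟩)) (Sum.inr (Sum.inr (Sum.inl (v.symm u))))
    rw [← hww, ← hvv] at this
    simp only [vk, Fin.is_lt, dite_true, bvk, Fin.eta, Equiv.apply_symm_apply] at this
    rw [Fin.lt_def, Fin.lt_def]
    omega
  · funext l
    have key : ∀ u : Fin q, u < D' l ↔ u < D l := by
      intro u
      have := pkk (Sum.inr (Sum.inr (Sum.inl u))) (Sum.inr (Sum.inr (Sum.inr l)))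
      simp only [pk, bpk] at this
      have e1 : u < D l ↔ (ea (Sum.inr u) : ℕ) < ea (Sum.inr (D l)) := ha2.lt_iff_lt.symm
      have e2 : u < D' l ↔ (ea' (Sum.inr u) : ℕ) < ea' (Sum.inr (D' l)) := ha2'.lt_iff_lt.symm
      rw [e1, e2]
      omega
    exact eq_of_forall_lt_iff fun u => (key u).symm

end Pool.Agent.helper48.CG
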