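import Pool.Agent.helper48.CG.ST2

/-!
Counting: iteration of the stages.
-/

set_option autoImplicit false

namespace Pool.Agent.helper48.CG

open Equiv Finset Function Pool.Agent.helper48.PP

variable {k b N M q j : ℕ}

/-- The corner data attached to an avoider of `1 ⊕ y` and a set of corner columns. -/
theorem CD_of (hHG : HG_stmt) {y : Perm (Fin (b + 1))} {v : Perm (Fin q)} (hv : v ∈ avs y q)
    {S : Finset (Fin q)} (hS : S ⊆ corn y v) (hj : S.card = j) :
    ∃ R : Fin j → Fin q, CD y v (S.orderEmbOfFin hj) R := by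
  obtain ⟨h1, h2, h3, h4, h5, h6⟩ := hHG y v
  have hv' : ¬ Contains v (dsum (1 : Perm (Fin 1)) y) := by
    classical
    unfold avs at hv
    exact (Finset.mem_filter.mp hv).2
  have hc : ∀ l : Fin j, hgt y v ((S.orderEmbOfFin hj l : ℕ) + 1) <
      hgt y v (S.orderEmbOfFin hj l : ℕ) := by
    intro l
    have h7 := hS (S.orderEmbOfFin_mem hj l)
    unfold corn at h7
    exact (Finset.mem_filter.mp h7).2
  refine ⟨fun l => ⟨hgt y v (S.orderEmbOfFin hj l : ℕ) - 1, ?_⟩, ?_, ?_, ?_, ?_, ?_⟩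
  · have := hc l
    have := h4 (S.orderEmbOfFin hj l : ℕ)
    omega
  · intro u
    rw [h1]
    exact not_lt.mpr (h5 hv' u)
  · exact (S.orderEmbOfFin hj).strictMono
  · intro l
    rw [h1]
    have := hc l
    simp only
    omega
  · intro l
    rw [h1]
    have := hc l
    simp only
    omega
  · intro l
    rw [h1]
    have := hc l
    simp only
    omega

theorem pc_card (y : Perm (Fin b)) (q j : ℕ) :
    Nat.card ((v : {v : Perm (Fin q) // v ∈ avs y q}) ×
      {S : Finset (Fin q) // S ⊆ corn y v.1 ∧ S.card = j}) = pc y q j := by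
  classical
  rw [Nat.card_sigma]
  unfold pc
  rw [← Finset.sum_coe_sort (avs y q) fun v => (corn y v).card.choose j]
  refine Finset.sum_congr rfl fun v _ => ?_
  rw [Nat.card_eq_fintype_card, Fintype.card_subtype, ← Finset.card_powersetCard]
  congr 1
  ext S
  simp [Finset.mem_powersetCard]

theorem stage_count (hHG : HG_stmt) {p : Perm (Fin k)} {y : Perm (Fin (b + 1))}
    (hp : SkewIndec p) (hNM : M ≤ N) :
    Nat.card {w : Perm (Fin N) // GoodP M p y w} *
      (avCount M p * ((M + q).choose q * ((M + q).choose q * pc y q j))) ≤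
    Nat.card {w : Perm (Fin (N + (M + (q + j)))) // GoodP M p y w} := by
  classical
  let T := {w : Perm (Fin N) // GoodP M p y w} × ({σ : Perm (Fin M) // ¬ Contains σ p} ×
    ({a : Finset (Fin (M + q)) // a.card = q} × ({b : Finset (Fin (M + q)) // b.card = q} ×
      ((v : {v : Perm (Fin q) // v ∈ avs y q}) ×
        {S : Finset (Fin q) // S ⊆ corn y v.1 ∧ S.card = j}))))
  have hT : Nat.card T = Nat.card {w : Perm (Fin N) // GoodP M p y w} *
      (avCount M p * ((M + q).choose q * ((M + q).choose q * pc y q j))) := by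
    simp only [T, Nat.card_prod]
    rw [avCount_eq, pc_card]
    congr 2
    congr 1
    · rw [Nat.card_eq_fintype_card, Fintype.card_finset_len, Fintype.card_fin]
    congr 1
    rw [Nat.card_eq_fintype_card, Fintype.card_finset_len, Fintype.card_fin]
  rw [← hT]
  have hR : ∀ c : ((v : {v : Perm (Fin q) // v ∈ avs y q}) ×
        {S : Finset (Fin q) // S ⊆ corn y v.1 ∧ S.card = j}),
        ∃ R : Fin j → Fin q, CD y c.1.1 (c.2.1.orderEmbOfFin c.2.2.2) R := fun c =>
    CD_of hHG c.1.2 c.2.2.1 c.2.2.2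
  choose Rf hRf using hR
  let F : T → {w : Perm (Fin (N + (M + (q + j)))) // GoodP M p y w} := fun t =>
    ⟨nperm t.1.1 t.2.1.1 t.2.2.2.2.1.1 (shf t.2.2.1.1 t.2.2.1.2) (shf t.2.2.2.1.1 t.2.2.2.1.2)
      (t.2.2.2.2.2.1.orderEmbOfFin t.2.2.2.2.2.2.2) (Rf t.2.2.2.2)
      (hRf t.2.2.2.2).cD.injective (hRf t.2.2.2.2).injR,
      goodP_nperm hp t.1.2 t.2.1.2 (hRf t.2.2.2.2) (shf_inl _ _) (shf_inr _ _) (shf_inl _ _)
        (shf_inr _ _)⟩
  refine Nat.card_le_card_of_injective F ?_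
  rintro ⟨⟨w, hw⟩, ⟨σ, hσ⟩, ⟨a, ha⟩, ⟨b, hb⟩, ⟨⟨v, hv⟩, ⟨S, hS, hSj⟩⟩⟩
    ⟨⟨w', hw'⟩, ⟨σ', hσ'⟩, ⟨a', ha'⟩, ⟨b', hb'⟩, ⟨⟨v', hv'⟩, ⟨S', hS', hSj'⟩⟩⟩ h
  have h1 := congrArg Subtype.val h
  simp only [F] at h1
  obtain ⟨e1, e2, e0, e3, e4, e5⟩ := stage_inj hNM (hRf ⟨⟨v, hv⟩, ⟨S, hS, hSj⟩⟩)
    (hRf ⟨⟨v', hv'⟩, ⟨S', hS', hSj'⟩⟩) (shf_inl _ _) (shf_inr _ _) (shf_inl _ _)
    (shf_inr _ _) (shf_inl _ _) (shf_inr _ _) (shf_inl _ _) (shf_inr _ _) h1
  have e6 := shf_inj e3
  have e7 := shf_inj e4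
  have e8 : S = S' := by
    rw [← Finset.coe_inj, ← Finset.range_orderEmbOfFin S hSj, ← Finset.range_orderEmbOfFin S' hSj',
      e5]
  subst e1 e2 e0 e6 e7 e8
  rfl

theorem goodP_start {p : Perm (Fin k)} {y : Perm (Fin b)} {σ : Perm (Fin M)}
    (hσ : ¬ Contains σ p) : GoodP M p y σ := by
  refine ⟨fun _ => False, ⟨fun h _ hm hi => ?_, fun _ _ hx => absurd hx (fun h => h),
    fun _ hx => absurd hx (fun h => h)⟩, fun _ _ h => h⟩
  exact hσ ⟨h, fun s t hst => hm s t hst, fun s t => hi s t⟩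

theorem iter_count (hHG : HG_stmt) {p : Perm (Fin k)} {y : Perm (Fin (b + 1))}
    (hp : SkewIndec p) (M q j : ℕ) (h1 : 1 ≤ avCount M p) (K : ℕ) :
    (avCount M p * ((M + q).choose q * ((M + q).choose q * pc y q j))) ^ K ≤
      Nat.card {w : Perm (Fin (M + K * (M + (q + j)))) // GoodP M p y w} := by
  induction K with
  | zero =>
    rw [pow_zero, zero_mul, add_zero]
    refine h1.trans ?_
    rw [avCount_eq]
    refine Nat.card_le_card_of_injective (fun σ => ⟨σ.1, goodP_start σ.2⟩) ?_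
    intro σ σ' h
    exact Subtype.ext (congrArg (fun x => x.1) h)
  | succ K ih =>
    have h2 := stage_count (q := q) (j := j) (y := y) hHG hp
      (show M ≤ M + K * (M + (q + j)) by omega)
    have h3 : M + (K + 1) * (M + (q + j)) = M + K * (M + (q + j)) + (M + (q + j)) := by ring
    rw [h3, pow_succ]
    exact (Nat.mul_le_mul_right _ ih).trans h2

theorem LOW (hHG : HG_stmt) : LOW_stmt := by
  intro k b p y hp hlast M q j h1 K
  refine (iter_count hHG (y := y) hp M q j h1 K).trans ?_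
  rw [avCount_eq]
  refine Nat.card_le_card_of_injective (fun w => ⟨w.1, w.2.avoid hlast⟩) ?_
  intro σ σ' h
  exact Subtype.ext (congrArg (fun x => x.1) h)

end Pool.Agent.helper48.CG
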