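import Pool.Agent.helper48.PP.Final

/-!
# Project cg: corner insertions (MP_a87880_co)

For patterns `x`, `y`, with `+` the direct sum and `L` the exponential growth rate of the number of
avoiders: if `p` is not a skew sum and does not end with its maximum, `y` is not empty and
`|Av_m(x + 1)| <= |Av_m(p)|` for all `m`, then
`L(x + 1 + y) <= (sqrt L(p) + sqrt L(1 + y)) ^ 2 < L(p + y)`.

Library (all proved): `Pool.Agent.helper48.PP` (Defs, Std, Stage, StageInj, Count, Upper, Growth,
MT, Final). Everything there may be used: `IsCopy`, `Contains`, `avCount`, `dsum`, `isCopy_dsum`,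
`isCopy_append`, `rk`, `std`, `shf`, `patt`, `ssum`, `ssum_avoid`, `SkewIndec`, `skewIndec_dsum`,
`rg`, `le_rg_pow`, `exists_kappa`, `lower_pow`, `sum_sq_le`, `stanley_wilf`, `avCount_mul`, ...

Each module proves one of the statements `XX_stmt` below.
-/

set_option autoImplicit false

namespace Pool.Agent.helper48.CG

open Equiv Finset Function Pool.Agent.helper48.PP

/-- There is a copy of `y` in `v` at positions `>= c` with values `>= r`. -/
def Yge {b q : ℕ} (y : Perm (Fin b)) (v : Perm (Fin q)) (c r : ℕ) : Prop :=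
  ∃ g : Fin b → Fin q, IsCopy v y g ∧ ∀ s, c ≤ (g s : ℕ) ∧ r ≤ (v (g s) : ℕ)

open Classical in
/-- The number of `r` such that `Yge y v c r`; as `Yge` is decreasing in `r`, one has
`Yge y v c r` iff `r < hgt y v c` (for `y` not empty). -/
noncomputable def hgt {b q : ℕ} (y : Perm (Fin b)) (v : Perm (Fin q)) (c : ℕ) : ℕ :=
  ((Finset.range q).filter fun r => Yge y v c r).card

/-- The corner columns of `v`: the positions where the decreasing function `hgt y v` drops. -/
noncomputable def corn {b q : ℕ} (y : Perm (Fin b)) (v : Perm (Fin q)) : Finset (Fin q) :=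
  Finset.univ.filter fun c : Fin q => hgt y v ((c : ℕ) + 1) < hgt y v (c : ℕ)

open Classical in
/-- The permutations of length `q` that avoid `1 + y`. -/
noncomputable def avs {b : ℕ} (y : Perm (Fin b)) (q : ℕ) : Finset (Perm (Fin q)) :=
  Finset.univ.filter fun v : Perm (Fin q) => ¬ Contains v (dsum (1 : Perm (Fin 1)) y)

/-- The number of pairs of a permutation in `avs y q` and a set of `j` corner columns of it. -/
noncomputable def pc {b : ℕ} (y : Perm (Fin b)) (q j : ℕ) : ℕ :=
  ∑ v ∈ avs y q, (corn y v).card.choose j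

/-- The number of avoiders of `1 + y`, weighted by `(1 + θ) ^ (number of corners)`. -/
noncomputable def wt {b : ℕ} (y : Perm (Fin b)) (θ : ℝ) (q : ℕ) : ℝ :=
  ∑ v ∈ avs y q, (1 + θ) ^ (corn y v).card

/-! ## Module HG (short) -/

/-- `HG`. Elementary facts on `hgt` (here `y` has length `b + 1`).
(1) `Yge y v c r` implies `r < q` (look at `g 0`) and is decreasing in `c` and in `r`; so the
filtered set in the definition of `hgt` is an initial segment `{0, ..., h - 1}` and
`Yge y v c r ↔ r < hgt y v c`. (2) monotone in `c`. (3) a copy has a position `< q`.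
(4) If `v` avoids `1 + y`: suppose `v u < hgt y v (u + 1)`; then there is a copy `g` of `y` at
positions `> u` with values `>= v u`, so `> v u` (`v` is injective and `g s ≠ u`); with
`isCopy_append` the position `u` followed by `g` is a copy of `1 + y`. (5) `avCount` is the
cardinality of `avs`. (6) the corner row: if `c` is a corner column then with `r = hgt y v c - 1`
one has `Yge y v c r`, not `Yge y v (c + 1) r`, not `Yge y v c (r + 1)`. -/
def HG_stmt : Prop := ∀ {b q : ℕ} (y : Perm (Fin (b + 1))) (v : Perm (Fin q)),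
  (∀ c r, Yge y v c r ↔ r < hgt y v c) ∧
  (∀ c c', c ≤ c' → hgt y v c' ≤ hgt y v c) ∧
  (∀ c, q ≤ c → hgt y v c = 0) ∧
  (∀ c, hgt y v c ≤ q) ∧
  (¬ Contains v (dsum (1 : Perm (Fin 1)) y) → ∀ u : Fin q, hgt y v ((u : ℕ) + 1) ≤ (v u : ℕ)) ∧
  (∀ n, avCount n (dsum (1 : Perm (Fin 1)) y) = (avs y n).card)

/-! ## Module UP (medium) -/

/-- `UP`. Upper bound by merges (Claesson, Jelinek, Steingrimsson). Colour the positions of an
avoider `w` of `x + 1 + y`: `S` is the set of the `i` with NO copy of `x` strictly below and to the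
left, i.e. `¬ XB x w i (w i)`. The pattern of `w` on `S` avoids `x + 1` (a copy of `x + 1` inside
`S` has a last element in `S` with a copy of `x` below and to the left); the pattern of `w` on the
complement avoids `1 + y` (its first element has a copy of `x` below and to the left: together with
the copy of `1 + y` this is a copy of `x + 1 + y`). The permutation `w` is determined by `S`, the
set of values `S.image w` and the two patterns (`patt_inj` for `S` and for its complement).
Follow `upper_count` in PP/Upper.lean: fibres over the pairs `(S, S.image w)`; the fibre over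
`(S₀, V₀)` injects into the product of `{w // ¬ Contains w (x + 1)}` (length `S₀.card`) and
`{w // ¬ Contains w (1 + y)}` (length `n - S₀.card`, the cardinality of the complement). -/
def UP_stmt : Prop := ∀ {a b : ℕ} (x : Perm (Fin a)) (y : Perm (Fin b)) (n : ℕ),
  avCount n (dsum (dsum x (1 : Perm (Fin 1))) y) ≤
    ∑ m ∈ Finset.range (n + 1), n.choose m * n.choose m *
      (avCount m (dsum x (1 : Perm (Fin 1))) * avCount (n - m) (dsum (1 : Perm (Fin 1)) y))

/-! ## Modules IN1, IN2, IN3, INS: inserting decreasing elements along the boundary -/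

/-- Position key of the insertion: the old element `u` has key `2 u + 1`, the new element number
`i` is inserted in the gap `a i` (before the old position `a i`), with key `2 (a i)`. -/
def ipk {q d : ℕ} (a : Fin d → Fin (q + 1)) : Fin q ⊕ Fin d → ℕ
  | Sum.inl u => 2 * (u : ℕ) + 1
  | Sum.inr i => 2 * (a i : ℕ)

/-- Value key of the insertion: the new element number `i` is put in the row gap
`hgt y v (a i)` (below the old value `hgt y v (a i)`, above the old value one less); the new
elements of one row gap are decreasing. -/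
noncomputable def ivk {b q d : ℕ} (y : Perm (Fin b)) (v : Perm (Fin q)) (a : Fin d → Fin (q + 1)) :
    Fin q ⊕ Fin d → ℕ
  | Sum.inl u => (d + 1) * (v u : ℕ) + d
  | Sum.inr i => (d + 1) * hgt y v (a i) + (d - 1 - (i : ℕ))

/-- `IN1` (short). The keys are injective (`a` strictly increasing, so injective). Values: the
remainder mod `d + 1` of the value key of an old element is `d`, that of the new element `i` is
`d - 1 - i < d`. -/
def IN1_stmt : Prop := ∀ {b q d : ℕ} (y : Perm (Fin b)) (v : Perm (Fin q))
  (a : Fin d → Fin (q + 1)), StrictMono a → Injective (ipk a) ∧ Injective (ivk y v a)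

/-- `IN2` (medium). If `v` avoids `1 + y`, no copy of `1 + y` in the keys: no `x` and `g` with `g`
a copy of `y`, all of it above and to the right of `x`.
Proof (hypothesis `HG_stmt`). (i) A new element `inr i` has NO element `z` with smaller position key
and smaller value key: if `z = inr i'` then `a i' < a i`, so `i' < i`,
`hgt (a i) <= hgt (a i')` and `d - 1 - i < d - 1 - i'`, the value key of `z` is larger; if
`z = inl u` then `u + 1 <= a i`, so `v u >= hgt (u + 1) >= hgt (a i)` (HG), the value key of `z` is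
`>= (d + 1) hgt (a i) + d`, larger. (ii) All `g t` have `x` below and to the left, so they are old:
`g t = inl (g' t)` and `g'` is a copy of `y` in `v` (compare keys). (iii) If `x = inl u`: the
position `u` followed by `g'` is a copy of `1 + y` in `v` (`isCopy_append`), contradiction. (iv) If
`x = inr i`: `g' t >= a i` (positions) and `v (g' t) >= hgt (a i)` (values:
`(d + 1) v (g' t) + d > (d + 1) hgt (a i) + (d - 1 - i)` gives `v (g' t) >= hgt (a i)`), so
`Yge y v (a i) (hgt (a i))`, contradiction with HG (1). -/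
def IN2_stmt : Prop := ∀ {b q d : ℕ} (y : Perm (Fin (b + 1))) (v : Perm (Fin q))
  (a : Fin d → Fin (q + 1)), StrictMono a → ¬ Contains v (dsum (1 : Perm (Fin 1)) y) →
  ∀ (x : Fin q ⊕ Fin d) (g : Fin (b + 1) → Fin q ⊕ Fin d),
    (∀ s t, s < t → ipk a (g s) < ipk a (g t)) →
    (∀ s t, ivk y v a (g s) < ivk y v a (g t) ↔ y s < y t) →
    (∀ t, ipk a x < ipk a (g t) ∧ ivk y v a x < ivk y v a (g t)) → False

/-- The boundary of a set of numbers below `N`. -/
def bd {N : ℕ} (B : Finset (Fin N)) : Finset ℕ :=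
  (Finset.range (N + 1)).filter fun x =>
    ((∃ z ∈ B, (z : ℕ) = x) ∧ ¬ ∃ z ∈ B, (z : ℕ) + 1 = x) ∨
    ((¬ ∃ z ∈ B, (z : ℕ) = x) ∧ ∃ z ∈ B, (z : ℕ) + 1 = x)

/-- `IN3` (medium). The value ranks of the new elements form a set `B` with few boundary points.
Let `B` be any finset of `Fin (q + d)` and `V : Fin q ⊕ Fin d ≃ Fin (q + d)` a bijection increasing
with the value key, with `B` the set of the `V (inr i)`. Then the boundary of `B` has at most
`2 (number of corners + 1)` elements.
Proof. Starts (`x = z` with `z` in `B`, and `x - 1` not in `B` or `x = 0`): send a start `x = V (inr i)`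
to the row gap `hgt y v (a i)`. Injective: if `x < x'` are starts, `x = V (inr i)`,
`x' = V (inr i')` with the same row gap `H`, then `x' - 1` is `>= x`, is not in `B`, so it is
`V (inl u)`, not `x`, and the value key of `inl u` lies strictly between those of `inr i` and
`inr i'`, which both lie in `[(d + 1) H, (d + 1) H + d - 1]`; but it is `d` mod `d + 1`:
impossible. Ends (`x - 1` in `B`, `x` not in `B`): the same with `x - 1 = V (inr i)`. The row gaps
used are values of the decreasing function `hgt y v` on `{0, ..., q}`; it takes at most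
(number of `c < q` with `hgt (c + 1) < hgt c`) `+ 1` values (induction on `q`; HG (2)). -/
def IN3_stmt : Prop := ∀ {b q d : ℕ} (y : Perm (Fin (b + 1))) (v : Perm (Fin q))
  (a : Fin d → Fin (q + 1)), StrictMono a → ∀ (V : Fin q ⊕ Fin d ≃ Fin (q + d)),
  (∀ z z', V z < V z' ↔ ivk y v a z < ivk y v a z') →
  (bd (Finset.univ.image fun i : Fin d => V (Sum.inr i))).card ≤ 2 * ((corn y v).card + 1)

/-- `BDI` (short). A set is determined by its boundary (induction on `x`: membership of `x` is
membership of `x - 1` flipped iff `x` is in the boundary), hence the number of sets with at most `m`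
boundary points is at most the number of subsets of `{0, ..., N}` with at most `m` elements. -/
def BDI_stmt : Prop := ∀ (N m : ℕ),
  ((Finset.univ : Finset (Finset (Fin N))).filter fun B => (bd B).card ≤ m).card ≤
    ∑ i ∈ Finset.range (m + 1), (N + 1).choose i

/-- `INS` (medium). Counting. For `v` in `avs y q` with at most `k` corners and a set `A` of `d`
gaps (a subset of `Fin (q + 1)`, enumerated increasingly by `a = A.orderEmbOfFin`), let `v'` be
`std` (PP/Std) of the keys `ipk a`, `ivk y v a` (injective by IN1), a permutation of length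
`q + d`. It avoids `1 + y` by IN2 (a copy `f` of `dsum 1 y` in `v'` gives with
`isCopy_dsum`: `x` the element at position `f 0`, `g` the elements at the positions of the `y`
part; positions and values of `v'` are compared by the keys, `rk_lt`). Let `B` be the set of the
value ranks of the new elements; `(bd B).card <= 2 (k + 1)` by IN3. The map
`(v, A) ↦ (v', B)` is injective: let `(v, A)`, `(w, A')` have the same image, `P, V` resp.
`P', V'` the rank bijections (`rk`) of the first and the second; `φ = P.trans P'.symm` satisfies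
`P' (φ z) = P z` and (since `v' = w'`) `V' (φ z) = V z`; since the sets `B` are equal `φ` maps new
elements to new elements, hence old ones to old ones; it is increasing for positions on the old
elements and on the new elements, so it is the identity (`strictMono_eq_id`); comparing value keys of old elements gives `v = w`
(`rk_unique`), comparing position keys of `inr i` and `inl u` gives `a i <= u ↔ a' i <= u` for all
`u`, so `a = a'` and `A = A'`. Then count pairs, with BDI for the number of `B`. -/
def INS_stmt : Prop := ∀ {b : ℕ} (y : Perm (Fin (b + 1))) (q d k : ℕ),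
  ((avs y q).filter fun v => (corn y v).card ≤ k).card * (q + 1).choose d ≤
    (avs y (q + d)).card * ∑ i ∈ Finset.range (2 * (k + 1) + 1), (q + d + 1).choose i

/-! ## Module SUP (medium) and WPC (short) -/

/-- `SUP`. Supermultiplicativity. Send `(v, v')` to the skew sum `w = ssum v v'` (PP/Count):
it avoids `1 + y` (`ssum_avoid`, `skewIndec_dsum`), and `ssum` is injective (`ssum_inj`). It has at
least as many corners as `v` and `v'` together: if `c` is a corner column of `v` (length `m`) then
`hgt y w c >= n + hgt y v c` (a copy in `v` with values `>= r` is a copy in `w` with values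
`>= n + r`), and `hgt y w (c + 1) <= n + hgt y v (c + 1)` (a copy in `w` with all values
`>= n + h` uses only entries of `v`); for `c' >= 0` one has `hgt y w (m + c') = hgt y v' c'`
(positions `>= m` belong to `v'`). So `castAdd c` and `natAdd c'` are corner columns of `w`.
`1 <= wt`: every term is `>= 1` and there is an avoider (`one_le_avCount`, HG (6)).
`wt <= (1 + θ) ^ q * avCount`: at most `q` corners. -/
def SUP_stmt : Prop := ∀ {b : ℕ} (y : Perm (Fin (b + 1))) (θ : ℝ), 0 ≤ θ →
  (∀ m n, wt y θ m * wt y θ n ≤ wt y θ (m + n)) ∧ (∀ n, 1 ≤ wt y θ n) ∧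
  (∀ n, wt y θ n ≤ (1 + θ) ^ n * (avCount n (dsum (1 : Perm (Fin 1)) y) : ℝ))

/-- `WPC`. (1) Binomial theorem for each `v` (at most `q` corners). (2) The permutations with
more than `k` corners: each has weight `>= (1 + θ) ^ (k + 1)`. -/
def WPC_stmt : Prop := ∀ {b : ℕ} (y : Perm (Fin (b + 1))) (θ : ℝ), 0 ≤ θ →
  (∀ q, wt y θ q = ∑ j ∈ Finset.range (q + 1), (pc y q j : ℝ) * θ ^ j) ∧
  (∀ q k, (((avs y q).card : ℝ) - (((avs y q).filter fun v => (corn y v).card ≤ k).card : ℝ)) *
    (1 + θ) ^ (k + 1) ≤ wt y θ q)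

/-! ## Analytic modules FEW, GRW, MRG (only PP/Growth) -/

/-- `FEW` (medium). Suppose `A q <= b ^ (2 q)` for all `q`, `b = rg s >= 1`. Let `D` be an integer
with `D >= 8` and `D >= 8 b ^ 2`, `E` an integer with `4 D <= 2 ^ E`; for `m >= 1` put
`q = 2 E D m`, `d = 2 E m`, `k = m - 1`. Then (`s q <= b ^ (2 q)` by `le_rg_pow`)
`C(q + 1, d) >= C(q, d) >= (q / d) ^ d = D ^ d` (`Nat.pow_le_choose` or the like), and for
`x = 1 / (4 D)`: `∑_{i <= 2 m} C(N, i) <= (1 + x) ^ N x ^ (- 2 m)` with `N = q + d + 1`, where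
`(1 + x) ^ N <= exp (x N) <= 3 * 2 ^ (E m)` (as `x N <= 9 E m / 16 + 1/32`) and
`x ^ (- 2 m) = (4 D) ^ (2 m) <= 2 ^ (2 E m)`. So
`few q (m - 1) <= b ^ (2 q) * (b ^ 2 / D) ^ d * 3 * 2 ^ (3 E m) <= 3 b ^ (2 q) 2 ^ (-6 E m + 3 E m)
<= 3 b ^ (2 q) 8 ^ (- m)`, and `s q - few q (m - 1) <= b ^ (2 q) (1 + θ) ^ (- m)`. With
`ρ = min (1 + θ) 8 > 1`: `s (2 E D m) <= 4 b ^ (4 E D m) ρ ^ (- m)` for all `m >= 1`. Choose
`0 <= t < b` with `(t / b) ^ (4 E D) ρ > 1`; `exists_kappa` gives `κ t ^ (4 E D m) <= s (2 E D m)`,
so `((t / b) ^ (4 E D) ρ) ^ m <= 4 / κ` for all `m`, a contradiction. -/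
def FEW_stmt : Prop := ∀ (s A : ℕ → ℝ) (few : ℕ → ℕ → ℝ) (c θ : ℝ), 1 ≤ c → 0 < θ →
  (∀ n, 1 ≤ s n) → (∀ m n, s m * s n ≤ s (m + n)) → (∀ n, s n ≤ c ^ n) →
  (∀ q k, (s q - few q k) * (1 + θ) ^ (k + 1) ≤ A q) →
  (∀ q d k, few q k * ((q + 1).choose d : ℝ) ≤
    s (q + d) * ∑ i ∈ Finset.range (2 * (k + 1) + 1), ((q + d + 1).choose i : ℝ)) →
  ∃ q, rg s ^ (2 * q) < A q

/-- `GRW` (medium). The generalisation of `exists_stage` (PP/Growth, copy its proof). Put
`a = rg s`, `H = (a + β) ^ 2`. Suppose for all `M, q, j` that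
`s M * C(M + q, q) ^ 2 * P q j <= H ^ (M + q + j)`. Multiplying by `H ^ (- j)` and summing over
`j <= q`: `s M * C(M + q, q) ^ 2 * A q <= (q + 1) H ^ (M + q)`. `β < rg A`: there is `q` with
`β ^ (2 q) < A q`, `q >= 1` (for `q = 0` the supermultiplicativity gives `A 0 ^ 2 <= A 0`, so
`A 0 <= 1`), and the `2 q`-th root of `A q` is in the set defining `rg A`, `> β`. Choose
`0 <= t < a`, `0 <= t' < rg A` with `t + t' > a + β`; `exists_kappa` for `s` and for `A`; so
`(t + t') ^ n = ∑ C(n, M) t ^ M t' ^ (n - M) <= (n + 1) sqrt ((n + 1) / (κ κ')) (a + β) ^ n`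
for all `n`, a contradiction. -/
def GRW_stmt : Prop := ∀ (s A : ℕ → ℝ) (P : ℕ → ℕ → ℝ) (c c' β : ℝ), 1 ≤ c → 1 ≤ c' → 1 ≤ β →
  (∀ n, 1 ≤ s n) → (∀ m n, s m * s n ≤ s (m + n)) → (∀ n, s n ≤ c ^ n) →
  (∀ n, 1 ≤ A n) → (∀ m n, A m * A n ≤ A (m + n)) → (∀ n, A n ≤ c' ^ n) →
  (∀ q j, 0 ≤ P q j) →
  (∀ q, A q = ∑ j ∈ Finset.range (q + 1), P q j * (1 / (rg s + β) ^ 2) ^ j) →
  (∃ q, β ^ (2 * q) < A q) →
  ∃ M q j : ℕ, (rg s + β) ^ (2 * (M + (q + j))) <
    s M * ((M + q).choose q * ((M + q).choose q * P q j))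

/-- `MRG` (short). As `merge_le` in PP/Growth: each term is at most
`(C(n, m) a ^ m b ^ (n - m)) ^ 2` by `le_rg_pow`, then `sum_sq_le` and the binomial theorem. -/
def MRG_stmt : Prop := ∀ (s s' : ℕ → ℝ) (c c' : ℝ), 1 ≤ c → 1 ≤ c' →
  (∀ n, 1 ≤ s n) → (∀ m n, s m * s n ≤ s (m + n)) → (∀ n, s n ≤ c ^ n) →
  (∀ n, 1 ≤ s' n) → (∀ m n, s' m * s' n ≤ s' (m + n)) → (∀ n, s' n ≤ c' ^ n) →
  ∀ n, ∑ m ∈ Finset.range (n + 1), (n.choose m : ℝ) * n.choose m * (s m * s' (n - m)) ≤
    (rg s + rg s') ^ (2 * n)

/-! ## Stage modules ST1, ST2, ST3 (long; copies of PP/Stage, StageInj, Count with changes) -/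

/-- `LOW` (modules ST1, ST2, ST3, by helper48). The lower bound by the staircase with corner
insertions. -/
def LOW_stmt : Prop := ∀ {k b : ℕ} (p : Perm (Fin (k + 1))) (y : Perm (Fin (b + 1))),
  SkewIndec p → p (Fin.last k) ≠ Fin.last k → ∀ M q j : ℕ, 1 ≤ avCount M p → ∀ K : ℕ,
  (avCount M p * ((M + q).choose q * ((M + q).choose q * pc y q j))) ^ K ≤
    avCount (M + K * (M + (q + j))) (dsum p y)

/-! ## Module FIN (medium) and COR (short) -/

/-- `FIN`. Copy `end_insertion` (PP/Final). `p` has length `>= 2`. `s m = avCount m p`,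
`s' m = avCount m (dsum 1 y)` (supermultiplicative: `avCount_mul`, `skewIndec_dsum`; `>= 1`:
`one_le_avCount`; bounded by `stanley_wilf`, which wants the length in the form `k + 2`: use
`obtain`/`cases` or state it for `dsum 1 y` with a cast-free rewriting
`1 + (b + 1) = b + 2` by a `have : ∀ n (h : n = b + 2) ...` argument). `β = rg s' >= 1`.
`θ = 1 / (rg s + β) ^ 2`, `A = wt y θ`; FEW with `few q k = ((avs y q).filter ...).card` (INS, WPC,
HG (6)) gives `q` with `β ^ (2 q) < A q`; GRW with `P = pc y`; UP with the hypothesis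
`avCount m (x + 1) <= avCount m p` and MRG give the upper bound `(rg s + β) ^ (2 n)`; LOW the lower
bound; `eventually_gap` the conclusion (`avCount (dsum p y)` is monotone by `avCount_monotone`;
`M + (q + j) > 0` since for `M = q = j = 0` the strict inequality would read `1 < s 0 * pc y 0 0`,
where `s 0 <= 1` and `pc y 0 0 = (avs y 0).card <= 1`). -/
def FIN_stmt : Prop := ∀ {a b k : ℕ} (x : Perm (Fin a)) (y : Perm (Fin (b + 1)))
  (p : Perm (Fin (k + 1))), SkewIndec p → p (Fin.last k) ≠ Fin.last k →
  (∀ m, avCount m (dsum x (1 : Perm (Fin 1))) ≤ avCount m p) →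
  ∃ ρ : ℝ, 1 < ρ ∧ ∃ N, ∀ n, N ≤ n →
    ρ ^ n * (avCount n (dsum (dsum x (1 : Perm (Fin 1))) y) : ℝ) ≤ (avCount n (dsum p y) : ℝ) ∧
    (avCount n (dsum (dsum x (1 : Perm (Fin 1))) y) : ℝ) < (avCount n (dsum p y) : ℝ)

/-- `COR`. Apply FIN to `x + 1` and `p = x + 21` (with `x` of length `a + 1`): `p` is not a skew sum
(`skewIndec_dsum`), its last value is not the maximum. The hypothesis is `swap_dominance`
(PP/Swap, see also Results/MP_a87880_co/SwapDominance.lean) with the empty `y`:
`dsum z (1 : Perm (Fin 0))` and `z` have the same avoiders (the types `Fin (m + 0)` and `Fin m` are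
equal by definition; show `dsum z 1 = z` by `Equiv.ext`/`Fin.ext`), and
`dsum (dsum x 1) 1 = dsum x (1 : Perm (Fin 2))` (again the types are equal by definition). -/
def COR_stmt : Prop := ∀ {a b : ℕ} (x : Perm (Fin (a + 1))) (y : Perm (Fin (b + 1))),
  ∃ ρ : ℝ, 1 < ρ ∧ ∃ N, ∀ n, N ≤ n →
    ρ ^ n * (avCount n (dsum (dsum x (1 : Perm (Fin 2))) y) : ℝ) ≤
      (avCount n (dsum (dsum x (Equiv.swap (0 : Fin 2) 1)) y) : ℝ) ∧
    (avCount n (dsum (dsum x (1 : Perm (Fin 2))) y) : ℝ) <
      (avCount n (dsum (dsum x (Equiv.swap (0 : Fin 2) 1)) y) : ℝ)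

end Pool.Agent.helper48.CG
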